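import Pool.Agent.Lib.MP_2bf17e_pr.Blocks
open Filter Topology Finset

namespace Pool.Agent.Lib.MP_2bf17e_pr

theorem edge_form {l : ℕ} {J : (KK l).Subgraph} {e : Sym2 (Fin 2 ⊕ Fin l)} (he : e ∈ J.edgeSet) :
    ∃ (i : Fin 2) (j : Fin l), e = s(Sum.inl i, Sum.inr j) ∧ Sum.inl i ∈ J.verts ∧
      Sum.inr j ∈ J.verts := by
  induction e using Sym2.ind with
  | _ u v =>
    rw [SimpleGraph.Subgraph.mem_edgeSet] at he
    have h1 := J.adj_sub he
    have hu := J.edge_vert he
    have hv := J.edge_vert he.symm
    rcases u with u | u <;> rcases v with v | v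
    · simp at h1
    · exact ⟨u, v, rfl, hu, hv⟩
    · exact ⟨v, u, Sym2.eq_swap, hv, hu⟩
    · simp at h1

theorem strictlyBalanced_KK {l : ℕ} (hl : 2 ≤ l) : StrictlyBalanced (KK l) := by
  classical
  intro J hJ hne
  have hcard : Fintype.card (Fin 2 ⊕ Fin l) = l + 2 := by simp [add_comm]
  rw [hcard, ncard_edgeSet_KK]
  set A : Finset (Fin 2) := Finset.univ.filter (fun i => Sum.inl i ∈ J.verts) with hA
  set B : Finset (Fin l) := Finset.univ.filter (fun j => Sum.inr j ∈ J.verts) with hB
  have hverts : J.verts = ((A.disjSum B : Finset (Fin 2 ⊕ Fin l)) : Set (Fin 2 ⊕ Fin l)) := by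
    ext u
    rw [Finset.mem_coe]
    rcases u with u | u
    · rw [Finset.inl_mem_disjSum, hA, Finset.mem_filter]; simp
    · rw [Finset.inr_mem_disjSum, hB, Finset.mem_filter]; simp
  have hv : J.verts.ncard = A.card + B.card := by
    rw [hverts, Set.ncard_coe_finset, Finset.card_disjSum]
  have hsub : J.edgeSet ⊆ (((A ×ˢ B).image (fun q => (s(Sum.inl q.1, Sum.inr q.2) :
      Sym2 (Fin 2 ⊕ Fin l))) : Finset _) : Set _) := by
    intro e he
    obtain ⟨i, j, rfl, hi, hj⟩ := edge_form he
    rw [Finset.mem_coe, Finset.mem_image]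
    refine ⟨(i, j), ?_, rfl⟩
    rw [Finset.mem_product, hA, hB, Finset.mem_filter, Finset.mem_filter]
    exact ⟨⟨Finset.mem_univ _, hi⟩, ⟨Finset.mem_univ _, hj⟩⟩
  have he : J.edgeSet.ncard ≤ A.card * B.card := by
    calc J.edgeSet.ncard ≤ _ := Set.ncard_le_ncard hsub (Finset.finite_toSet _)
      _ = _ := Set.ncard_coe_finset _
      _ ≤ (A ×ˢ B).card := Finset.card_image_le
      _ = A.card * B.card := Finset.card_product _ _
  have hAle : A.card ≤ 2 := by
    have := Finset.card_le_univ A
    simpa using this
  have hBle : B.card ≤ l := by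
    have := Finset.card_le_univ B
    simpa using this
  have hvpos : 0 < A.card + B.card := by
    rw [← hv]
    exact (Set.ncard_pos (Set.toFinite _)).mpr hne
  have hstrict : J.edgeSet.ncard * (l + 2) < 2 * l * (A.card + B.card) := by
    by_cases hfull : A.card = 2 ∧ B.card = l
    · have hA' : A = Finset.univ := by
        apply Finset.eq_univ_of_card
        rw [hfull.1]; simp
      have hB' : B = Finset.univ := by
        apply Finset.eq_univ_of_card
        rw [hfull.2]; simp
      have hvu : J.verts = Set.univ := by
        rw [hverts, hA', hB']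
        ext u
        rcases u with u | u <;> simp
      have hlt : J.edgeSet.ncard < 2 * l := by
        rw [← ncard_edgeSet_KK l]
        apply Set.ncard_lt_ncard _ (Set.toFinite _)
        rw [Set.ssubset_iff_subset_ne]
        refine ⟨J.edgeSet_subset, ?_⟩
        intro heq
        apply hJ
        ext u v
        · rw [hvu]; simp
        · rw [SimpleGraph.Subgraph.top_adj, ← SimpleGraph.Subgraph.mem_edgeSet, heq,
            SimpleGraph.mem_edgeSet]
      rw [hfull.1, hfull.2]
      have : J.edgeSet.ncard * (l + 2) < 2 * l * (l + 2) :=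
        Nat.mul_lt_mul_of_pos_right hlt (by omega)
      rw [add_comm 2 l]
      exact this
    · have h1 : J.edgeSet.ncard * (l + 2) ≤ A.card * B.card * (l + 2) :=
        Nat.mul_le_mul_right _ he
      refine lt_of_le_of_lt h1 ?_
      generalize A.card = a at *
      generalize B.card = c at *
      have ha : a = 0 ∨ a = 1 ∨ a = 2 := by omega
      rcases ha with rfl | rfl | rfl
      · simp only [zero_mul, zero_add] at *
        exact Nat.mul_pos (by omega) hvpos
      · have : c * (l + 2) ≤ c * (2 * l) := Nat.mul_le_mul_left _ (by omega)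
        calc 1 * c * (l + 2) = c * (l + 2) := by ring
          _ ≤ c * (2 * l) := this
          _ < 2 * l * (1 + c) := by
              have : 2 * l * (1 + c) = c * (2 * l) + 2 * l := by ring
              omega
      · have hc : c < l := by
          rcases Nat.lt_or_ge c l with h | h
          · exact h
          · exact absurd ⟨rfl, le_antisymm hBle h⟩ hfull
        calc 2 * c * (l + 2) = 2 * c * l + 4 * c := by ring
          _ < 2 * c * l + 4 * l := by omega
          _ = 2 * l * (2 + c) := by ring
  rw [hv, div_lt_div_iff₀ (by exact_mod_cast hvpos) (by positivity)]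
  exact_mod_cast hstrict

theorem fracIndep_KK {l : ℕ} (hl : 2 ≤ l) : fracIndep (KK l) = l := by
  classical
  unfold fracIndep
  apply le_antisymm
  · apply csSup_le
    · refine ⟨(l : ℝ), fun u => Sum.elim (fun _ => 0) (fun _ => 1) u, ?_, ?_, ?_⟩
      · intro v
        rcases v with v | v <;> simp
      · intro u v huv
        rcases u with u | u <;> rcases v with v | v
        · simp at huv
        · simp
        · simp
        · simp at huv
      · simp
    · rintro s ⟨α, hα, hadj, rfl⟩
      rw [Fintype.sum_sum_type, Fin.sum_univ_two]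
      have h0 : (0 : ℕ) < l := by omega
      have h1 : (1 : ℕ) < l := by omega
      have key : ∀ j : Fin l, α (Sum.inr j) ≤ 1 - ((if j = ⟨0, h0⟩ then α (Sum.inl 0) else 0) +
          (if j = ⟨1, h1⟩ then α (Sum.inl 1) else 0)) := by
        intro j
        by_cases hj0 : j = ⟨0, h0⟩
        · have hj1 : j ≠ ⟨1, h1⟩ := by rw [hj0]; simp
          rw [if_pos hj0, if_neg hj1]
          have := hadj (Sum.inl 0) (Sum.inr j) (by simp)
          linarith
        · by_cases hj1 : j = ⟨1, h1⟩
          · rw [if_neg hj0, if_pos hj1]
            have := hadj (Sum.inl 1) (Sum.inr j) (by simp)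
            linarith
          · rw [if_neg hj0, if_neg hj1]
            have := (hα (Sum.inr j)).2
            linarith
      have h2 : ∑ j : Fin l, α (Sum.inr j) ≤ l - (α (Sum.inl 0) + α (Sum.inl 1)) := by
        calc ∑ j : Fin l, α (Sum.inr j) ≤ ∑ j : Fin l, (1 - ((if j = ⟨0, h0⟩ then α (Sum.inl 0)
              else 0) + (if j = ⟨1, h1⟩ then α (Sum.inl 1) else 0))) :=
              Finset.sum_le_sum (fun j _ => key j)
          _ = _ := by
              rw [Finset.sum_sub_distrib, Finset.sum_add_distrib]
              simp
      linarith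
  · apply le_csSup
    · refine ⟨(l : ℝ) + 2, ?_⟩
      rintro s ⟨α, hα, hadj, rfl⟩
      calc ∑ v, α v ≤ ∑ _v : Fin 2 ⊕ Fin l, (1:ℝ) := Finset.sum_le_sum (fun v _ => (hα v).2)
        _ = l + 2 := by simp [add_comm]
    · refine ⟨fun u => Sum.elim (fun _ => 0) (fun _ => 1) u, ?_, ?_, ?_⟩
      · intro v
        rcases v with v | v <;> simp
      · intro u v huv
        rcases u with u | u <;> rcases v with v | v
        · simp at huv
        · simp
        · simp
        · simp at huv
      · simp

theorem maxDegree_KK {l : ℕ} (hl : 2 ≤ l) [DecidableRel (KK l).Adj] : (KK l).maxDegree = l := by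
  classical
  have hdeg : ∀ u : Fin 2 ⊕ Fin l, (KK l).degree u = Sum.elim (fun _ => l) (fun _ => 2) u := by
    intro u
    rw [← SimpleGraph.card_neighborFinset_eq_degree]
    rcases u with u | u
    · have : (KK l).neighborFinset (Sum.inl u) = Finset.univ.map Function.Embedding.inr := by
        ext v
        rw [SimpleGraph.mem_neighborFinset]
        rcases v with v | v <;> simp
      rw [this]
      simp
    · have : (KK l).neighborFinset (Sum.inr u) = Finset.univ.map Function.Embedding.inl := by
        ext v
        rw [SimpleGraph.mem_neighborFinset]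
        rcases v with v | v <;> simp
      rw [this]
      simp
  apply le_antisymm
  · apply SimpleGraph.maxDegree_le_of_forall_degree_le
    intro u
    rw [hdeg]
    rcases u with u | u
    · simp
    · simpa using hl
  · have h1 := (KK l).degree_le_maxDegree (Sum.inl 0)
    rw [hdeg] at h1
    simpa using h1

end Pool.Agent.Lib.MP_2bf17e_pr
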