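import Pool.Agent.Lib.MP_2bf17e_pr.MeanField
import Pool.Agent.Lib.MP_2bf17e_pr.GraphFacts
open Filter Topology Finset

namespace Pool.Agent.Lib.MP_2bf17e_pr

/-- `ω = log(1/p) - log(4 log(1/p)) - 1` -/
noncomputable def om (p : ℝ) : ℝ := Real.log (1 / p) - Real.log (4 * Real.log (1 / p)) - 1

theorem mf_det {n l L : ℕ} (hl : 3 ≤ l) {p R ε : ℝ} (hp0 : 0 < p) (hp1 : p < 1) (hR : 0 < R)
    (hX : R ^ l = (n : ℝ) ^ (l + 2) * p ^ (2 * l)) (hΛ : 1 ≤ Real.log (1 / p)) (hω : 0 < om p)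
    (hε0 : 0 < ε) (hε1 : 5 * ε < 1) (hbud : om p * ((1 - 5 * ε) * L * R) ≤ n * p)
    (hdesc : (1 - ε) * (n : ℝ) ^ (l + 2) ≤ (n.descFactorial (l + 2) : ℝ))
    (hL : 5 * ε * (1 / ε) ^ l < 6 * ε * (L : ℝ) ^ l) (hL1 : 1 ≤ L) {ξ : Sym2 (Fin n) → ℝ}
    (hξ : ξ ∈ admissible (KK l) n p ((2 * (L : ℝ) ^ l - 1) * (1 - ε))) :
    om p * ((1 - 5 * ε) * L * R) ≤ totEnt p ξ := by
  by_contra hcon
  push Not at hcon
  obtain ⟨hξ1, hξ2⟩ := hξ
  set lam := 1 - 5 * ε with hlam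
  have hlam0 : 0 < lam := by rw [hlam]; linarith
  have hlam1 : lam < 1 := by rw [hlam]; linarith
  set m := ∑ e ∈ pairs n, max (ξ e - p) 0 ^ 2 with hm
  have hm0 : 0 ≤ m := Finset.sum_nonneg (fun e _ => sq_nonneg _)
  have hωm : om p * m ≤ totEnt p ξ := by
    rw [hm, Finset.mul_sum]
    unfold totEnt
    apply Finset.sum_le_sum
    intro e he
    exact relEnt_ge_sq hp0 hp1 (hξ1 e he).1 (hξ1 e he).2 hΛ
  have hmlt : m < lam * L * R := by
    have : om p * m < om p * (lam * L * R) := lt_of_le_of_lt hωm hcon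
    exact lt_of_mul_lt_mul_left this hω.le
  have hI : totEnt p ξ ≤ n * p := hcon.le.trans hbud
  have hbound := expect_copies_bound (l := l) (by omega) hp0 hp1 hlam0 hlam1 hξ1 hI
  rw [← hm] at hbound
  rw [expect_copies_const] at hξ2
  have hRl : 0 < R ^ l := by positivity
  have hLl : (0:ℝ) < (L : ℝ) ^ l := by positivity
  -- first term
  have h1 : (n : ℝ) ^ 2 * ((1 - lam) * (5 * (n * p ^ 2) / (1 - lam)) ^ l) =
      5 * ε * (1 / ε) ^ l * R ^ l := by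
    have e1 : 1 - lam = 5 * ε := by rw [hlam]; ring
    have e2 : 5 * (n * p ^ 2) / (5 * ε) = (n * p ^ 2) * (1 / ε) := by field_simp
    rw [e1, e2, mul_pow (n * p ^ 2 : ℝ), mul_pow (n : ℝ), ← pow_mul, hX, pow_add]
    ring
  have h2 : lam * (16 * (m / 2) ^ l / lam ^ l) ≤ lam * (2 * (L : ℝ) ^ l * R ^ l) := by
    apply mul_le_mul_of_nonneg_left _ hlam0.le
    rw [div_le_iff₀ (by positivity)]
    have h3 : (m / 2) ^ l ≤ (lam * L * R / 2) ^ l :=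
      pow_le_pow_left₀ (by positivity) (by linarith) l
    have h4 : (lam * L * R / 2) ^ l = lam ^ l * (L : ℝ) ^ l * R ^ l / 2 ^ l := by
      rw [div_pow, mul_pow, mul_pow]
    have h5 : (8:ℝ) ≤ 2 ^ l := by
      calc (8:ℝ) = 2 ^ 3 := by norm_num
        _ ≤ 2 ^ l := pow_le_pow_right₀ (by norm_num) hl
    have h6 : lam ^ l * (L : ℝ) ^ l * R ^ l / 2 ^ l ≤ lam ^ l * (L : ℝ) ^ l * R ^ l / 8 :=
      div_le_div_of_nonneg_left (by positivity) (by norm_num) h5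
    nlinarith
  rw [h1] at hbound
  have h7 : (1 + (2 * (L : ℝ) ^ l - 1) * (1 - ε)) * ((n.descFactorial (l + 2) : ℝ) * p ^ (2 * l)) ≤
      (5 * ε * (1 / ε) ^ l + 2 * lam * (L : ℝ) ^ l) * R ^ l := by
    calc _ ≤ _ := hξ2
      _ ≤ _ := hbound
      _ ≤ 5 * ε * (1 / ε) ^ l * R ^ l + lam * (2 * (L : ℝ) ^ l * R ^ l) := by linarith
      _ = _ := by ring
  have h8 : (1 - ε) * R ^ l ≤ (n.descFactorial (l + 2) : ℝ) * p ^ (2 * l) := by
    rw [hX, ← mul_assoc]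
    exact mul_le_mul_of_nonneg_right hdesc (by positivity)
  have h9 : (1 - ε) * (2 * (L : ℝ) ^ l) ≤ 1 + (2 * (L : ℝ) ^ l - 1) * (1 - ε) := by
    nlinarith
  have h10 : ((1 - ε) * (2 * (L : ℝ) ^ l)) * ((1 - ε) * R ^ l) ≤
      (5 * ε * (1 / ε) ^ l + 2 * lam * (L : ℝ) ^ l) * R ^ l := by
    refine le_trans ?_ h7
    apply mul_le_mul h9 h8
    · have : 0 ≤ 1 - ε := by linarith
      positivity
    · have : 0 ≤ (1 - ε) * (2 * (L : ℝ) ^ l) := by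
        have : 0 ≤ 1 - ε := by linarith
        positivity
      linarith
  have h11 : (1 - ε) ^ 2 * (2 * (L : ℝ) ^ l) ≤ 5 * ε * (1 / ε) ^ l + 2 * lam * (L : ℝ) ^ l := by
    have : ((1 - ε) ^ 2 * (2 * (L : ℝ) ^ l)) * R ^ l ≤
        (5 * ε * (1 / ε) ^ l + 2 * lam * (L : ℝ) ^ l) * R ^ l := by
      calc _ = ((1 - ε) * (2 * (L : ℝ) ^ l)) * ((1 - ε) * R ^ l) := by ring
        _ ≤ _ := h10
    exact le_of_mul_le_mul_right this hRl
  rw [hlam] at h11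
  nlinarith [sq_nonneg ε]

theorem tail_det {n l L : ℕ} (hl : 3 ≤ l) (hL1 : 1 ≤ L) {p R : ℝ} (hp0 : 0 < p) (hp1 : p < 1)
    (hR : 0 < R) (hX : R ^ l = (n : ℝ) ^ (l + 2) * p ^ (2 * l))
    (hs2 : (⌈(L : ℝ) * R⌉₊ + l : ℝ) + 2 ≤ n / 2) (hn : 4 ≤ n)
    (hbp : n * p ^ 2 ≤ L * R) :
    0 < upperTail (KK l) n p (2 * (L : ℝ) ^ l - 1) ∧
    -Real.log (upperTail (KK l) n p (2 * (L : ℝ) ^ l - 1)) ≤
      (⌈(L : ℝ) * R⌉₊ + l : ℝ) * Real.log (4 * (⌈(L : ℝ) * R⌉₊ + l : ℝ) / (n * p ^ 2)) := by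
  set s : ℕ := ⌈(L : ℝ) * R⌉₊ + l with hs
  have hsR : ((⌈(L : ℝ) * R⌉₊ : ℝ) + l) = (s : ℝ) := by rw [hs]; push_cast; ring
  rw [hsR] at hs2 ⊢
  have hs0 : 0 < s := by omega
  have hs0' : (0:ℝ) < s := by exact_mod_cast hs0
  have hn0 : (4:ℝ) ≤ n := by exact_mod_cast hn
  set b : ℕ := (n - 2) / s with hb
  have hnb : 2 + s * b ≤ n := by
    have h1 : s * b ≤ n - 2 := Nat.mul_div_le (n - 2) s
    have h2 : 2 ≤ n := by omega
    have h3 : 2 + s * b ≤ 2 + (n - 2) := Nat.add_le_add_left h1 2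
    have h4 : 2 + (n - 2) = n := by omega
    rw [h4] at h3
    exact h3
  have hble : (b : ℝ) ≤ n / s := by
    have h1 : (b : ℝ) ≤ ((n - 2 : ℕ) : ℝ) / s := Nat.cast_div_le
    refine h1.trans ?_
    apply div_le_div_of_nonneg_right _ hs0'.le
    exact_mod_cast Nat.sub_le n 2
  have hbge : (n : ℝ) / (2 * s) ≤ b := by
    have h1 : s * b + (n - 2) % s = n - 2 := Nat.div_add_mod (n - 2) s
    have h2 := Nat.mod_lt (n - 2) hs0
    have h3 : n - 2 < s * b + s := by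
      rw [← h1]
      exact Nat.add_lt_add_left h2 _
    have h4 : n < s * b + s + 2 := by
      have h6 : n = (n - 2) + 2 := by omega
      calc n = (n - 2) + 2 := h6
        _ < s * b + s + 2 := Nat.add_lt_add_right h3 2
    have h5 : (n : ℝ) < s * b + s + 2 := by exact_mod_cast h4
    rw [div_le_iff₀ (by positivity)]
    nlinarith
  have hb1 : 1 ≤ b := by
    by_contra hcon
    have hb0 : b = 0 := Nat.lt_one_iff.mp (not_le.mp hcon)
    rw [hb0] at hbge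
    have : (0:ℝ) < n / (2 * s) := by positivity
    push_cast at hbge
    linarith
  have hLRs : (L : ℝ) * R ≤ s := by
    have h1 := Nat.le_ceil ((L : ℝ) * R)
    have h2 : ((⌈(L : ℝ) * R⌉₊ : ℕ) : ℝ) ≤ s := by exact_mod_cast Nat.le_add_right _ _
    linarith
  have hbp2 : (b : ℝ) * p ^ 2 ≤ 1 := by
    calc (b : ℝ) * p ^ 2 ≤ n / s * p ^ 2 := mul_le_mul_of_nonneg_right hble (by positivity)
      _ = (n * p ^ 2) / s := by ring
      _ ≤ 1 := by rw [div_le_one hs0']; linarith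
  have hcount : (1 + (2 * (L : ℝ) ^ l - 1)) * (n : ℝ) ^ (l + 2) * p ^ (2 * l) ≤
      2 * (((s + 1 - l : ℕ) : ℝ)) ^ l := by
    have e1 : (1 + (2 * (L : ℝ) ^ l - 1)) * (n : ℝ) ^ (l + 2) * p ^ (2 * l) =
        2 * ((L : ℝ) * R) ^ l := by
      rw [mul_pow, hX]; ring
    rw [e1]
    apply mul_le_mul_of_nonneg_left _ (by norm_num)
    apply pow_le_pow_left₀ (by positivity)
    have e2 : s + 1 - l = ⌈(L : ℝ) * R⌉₊ + 1 := by omega
    rw [e2]
    push_cast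
    have := Nat.le_ceil ((L : ℝ) * R)
    linarith
  have hP := upperTail_ge hnb hb1 hp0 hp1.le hbp2 hcount
  have hpos : 0 < (b * p ^ 2 / 2) ^ s := by
    have : (0:ℝ) < b := by exact_mod_cast hb1
    positivity
  refine ⟨lt_of_lt_of_le hpos hP, ?_⟩
  have h1 : Real.log ((b * p ^ 2 / 2) ^ s) ≤
      Real.log (upperTail (KK l) n p (2 * (L : ℝ) ^ l - 1)) := Real.log_le_log hpos hP
  rw [Real.log_pow] at h1
  have hbpos : (0:ℝ) < b := by exact_mod_cast hb1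
  have h2 : -Real.log (b * p ^ 2 / 2) ≤ Real.log (4 * s / (n * p ^ 2)) := by
    rw [← Real.log_inv]
    apply Real.log_le_log (by positivity)
    rw [inv_div, div_le_div_iff₀ (by positivity) (by positivity)]
    have h3 : (n : ℝ) ≤ b * (2 * s) := by
      rwa [div_le_iff₀ (by positivity)] at hbge
    have h4 : (n : ℝ) * p ^ 2 ≤ b * (2 * s) * p ^ 2 := mul_le_mul_of_nonneg_right h3 (by positivity)
    nlinarith
  calc -Real.log (upperTail (KK l) n p (2 * (L : ℝ) ^ l - 1)) ≤ s * -Real.log (b * p ^ 2 / 2) := by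
        linarith
    _ ≤ _ := mul_le_mul_of_nonneg_left h2 hs0'.le

theorem admissible_one {n l : ℕ} {p δ : ℝ} (h : (1 + δ) * p ^ (2 * l) ≤ 1) :
    (fun _ => (1:ℝ)) ∈ admissible (KK l) n p δ := by
  refine ⟨fun _ _ => ⟨zero_le_one, le_refl 1⟩, ?_⟩
  rw [expect_copies_const, expect_copies_const, one_pow, mul_one]
  have h1 : (0:ℝ) ≤ (n.descFactorial (l + 2) : ℝ) := Nat.cast_nonneg _
  nlinarith

end Pool.Agent.Lib.MP_2bf17e_pr
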