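import Pool.Agent.Lib.MP_2bf17e_pr.Defs
open Filter Topology Finset

namespace Pool.Agent.Lib.MP_2bf17e_pr

open Classical in
theorem mem_pairs {n : ℕ} (e : Sym2 (Fin n)) : e ∈ pairs n ↔ ¬ e.IsDiag := by
  unfold pairs
  rw [SimpleGraph.mem_edgeFinset, SimpleGraph.edgeSet_top]
  simp [Sym2.diagSet]

theorem mk_mem_pairs {n : ℕ} {x y : Fin n} : s(x, y) ∈ pairs n ↔ x ≠ y := by
  rw [mem_pairs]
  simp

open Classical in
/-- the edge set as a finset -/
noncomputable def eset {n : ℕ} (G : SimpleGraph (Fin n)) : Finset (Sym2 (Fin n)) :=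
  (pairs n).filter (fun e => e ∈ G.edgeSet)

theorem mem_eset {n : ℕ} {G : SimpleGraph (Fin n)} {e : Sym2 (Fin n)} :
    e ∈ eset G ↔ e ∈ G.edgeSet := by
  classical
  unfold eset
  rw [Finset.mem_filter]
  constructor
  · exact fun h => h.2
  · intro h
    exact ⟨(mem_pairs e).mpr (G.not_isDiag_of_mem_edgeSet h), h⟩

theorem sum_graphs_eq {n : ℕ} (f : Finset (Sym2 (Fin n)) → ℝ) :
    ∑ G : SimpleGraph (Fin n), f (eset G) = ∑ E ∈ (pairs n).powerset, f E := by
  classical
  refine Finset.sum_nbij' (fun G => eset G) (fun E => SimpleGraph.fromEdgeSet (E : Set _))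
    ?_ ?_ ?_ ?_ ?_
  · intro G _
    rw [Finset.mem_powerset]
    exact Finset.filter_subset _ _
  · intro E _
    exact Finset.mem_univ _
  · intro G _
    have : ((eset G : Finset (Sym2 (Fin n))) : Set (Sym2 (Fin n))) = G.edgeSet := by
      ext e
      rw [Finset.mem_coe, mem_eset]
    rw [this, SimpleGraph.fromEdgeSet_edgeSet]
  · intro E hE
    rw [Finset.mem_powerset] at hE
    ext e
    rw [mem_eset, SimpleGraph.edgeSet_fromEdgeSet]
    constructor
    · intro h
      exact Finset.mem_coe.mp h.1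
    · intro h
      refine ⟨Finset.mem_coe.mpr h, ?_⟩
      have := (mem_pairs e).mp (hE h)
      simpa [Sym2.diagSet] using this
  · intro G _
    rfl

open Classical in
/-- probability that all edges of `F` are present -/
theorem expect_incl {n : ℕ} (ξ : Sym2 (Fin n) → ℝ) (F : Finset (Sym2 (Fin n)))
    (hF : F ⊆ pairs n) :
    expect ξ (fun G => if (F : Set (Sym2 (Fin n))) ⊆ G.edgeSet then 1 else 0) = ∏ e ∈ F, ξ e := by
  unfold expect
  have h1 : ∀ G : SimpleGraph (Fin n), weight ξ G * (if (F : Set (Sym2 (Fin n))) ⊆ G.edgeSet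
      then (1:ℝ) else 0) = (fun E : Finset (Sym2 (Fin n)) =>
      (∏ e ∈ pairs n, if e ∈ E then ξ e else 1 - ξ e) * (if F ⊆ E then (1:ℝ) else 0))
      (eset G) := by
    intro G
    unfold weight
    simp only [mem_eset]
    congr 1
    have : ((F : Set (Sym2 (Fin n))) ⊆ G.edgeSet) ↔ F ⊆ eset G := by
      constructor
      · intro h e he
        rw [mem_eset]
        exact h (Finset.mem_coe.mpr he)
      · intro h e he
        exact mem_eset.mp (h (Finset.mem_coe.mp he))
    simp only [this]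
  rw [Finset.sum_congr rfl (fun G _ => h1 G), sum_graphs_eq (fun E : Finset (Sym2 (Fin n)) =>
      (∏ e ∈ pairs n, if e ∈ E then ξ e else 1 - ξ e) * (if F ⊆ E then (1:ℝ) else 0))]
  have h2 : ∀ E ∈ (pairs n).powerset,
      (∏ e ∈ pairs n, if e ∈ E then ξ e else 1 - ξ e) * (if F ⊆ E then (1:ℝ) else 0) =
      (∏ e ∈ E, ξ e) * ∏ e ∈ pairs n \ E, (if e ∈ F then 0 else 1 - ξ e) := by
    intro E hE
    rw [Finset.mem_powerset] at hE
    rw [← Finset.prod_sdiff hE]
    have e1 : ∏ e ∈ pairs n \ E, (if e ∈ E then ξ e else 1 - ξ e) =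
        ∏ e ∈ pairs n \ E, (1 - ξ e) := by
      apply Finset.prod_congr rfl
      intro e he
      rw [if_neg (Finset.mem_sdiff.mp he).2]
    have e2 : ∏ e ∈ E, (if e ∈ E then ξ e else 1 - ξ e) = ∏ e ∈ E, ξ e := by
      apply Finset.prod_congr rfl
      intro e he
      rw [if_pos he]
    rw [e1, e2]
    by_cases hFE : F ⊆ E
    · rw [if_pos hFE, mul_one, mul_comm]
      congr 1
      apply Finset.prod_congr rfl
      intro e he
      rw [if_neg (fun h => (Finset.mem_sdiff.mp he).2 (hFE h))]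
    · rw [if_neg hFE, mul_zero]
      obtain ⟨e, he, heE⟩ := Finset.not_subset.mp hFE
      have : ∏ e ∈ pairs n \ E, (if e ∈ F then 0 else 1 - ξ e) = 0 := by
        apply Finset.prod_eq_zero (Finset.mem_sdiff.mpr ⟨hF he, heE⟩)
        rw [if_pos he]
      rw [this, mul_zero]
  rw [Finset.sum_congr rfl h2, ← Finset.prod_add, ← Finset.prod_sdiff hF]
  have e3 : ∏ e ∈ pairs n \ F, (ξ e + if e ∈ F then 0 else 1 - ξ e) = 1 := by
    apply Finset.prod_eq_one
    intro e he
    rw [if_neg (Finset.mem_sdiff.mp he).2]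
    ring
  rw [e3, one_mul]
  apply Finset.prod_congr rfl
  intro e he
  rw [if_pos he, add_zero]

theorem weight_nonneg {n : ℕ} {ξ : Sym2 (Fin n) → ℝ} (h : ∀ e ∈ pairs n, 0 ≤ ξ e ∧ ξ e ≤ 1)
    (G : SimpleGraph (Fin n)) : 0 ≤ weight ξ G := by
  classical
  unfold weight
  apply Finset.prod_nonneg
  intro e he
  have := h e he
  split_ifs <;> linarith

theorem expect_mono {n : ℕ} {ξ : Sym2 (Fin n) → ℝ} (h : ∀ e ∈ pairs n, 0 ≤ ξ e ∧ ξ e ≤ 1)
    {f g : SimpleGraph (Fin n) → ℝ} (hfg : ∀ G, f G ≤ g G) : expect ξ f ≤ expect ξ g := by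
  unfold expect
  apply Finset.sum_le_sum
  intro G _
  exact mul_le_mul_of_nonneg_left (hfg G) (weight_nonneg h G)

theorem expect_sum {n : ℕ} {ι : Type*} (s : Finset ι) (ξ : Sym2 (Fin n) → ℝ)
    (f : ι → SimpleGraph (Fin n) → ℝ) :
    expect ξ (fun G => ∑ i ∈ s, f i G) = ∑ i ∈ s, expect ξ (f i) := by
  unfold expect
  simp only [Finset.mul_sum]
  rw [Finset.sum_comm]

end Pool.Agent.Lib.MP_2bf17e_pr
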