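import Pool.Agent.Lib.MP_2bf17e_pr.Count
open Filter Topology Finset

namespace Pool.Agent.Lib.MP_2bf17e_pr

section

variable {n s b : ℕ}

/-- the hub edges -/
def hubE (h : Fin 2 → Fin n) (g : Fin s → Fin b → Fin n) (q : (Fin 2 × Fin s) × Fin b) :
    Sym2 (Fin n) := s(h q.1.1, g q.1.2 q.2)

theorem hubE_inj {h : Fin 2 → Fin n} {g : Fin s → Fin b → Fin n} (hh : Function.Injective h)
    (hg : ∀ i j i' j', g i j = g i' j' → i = i' ∧ j = j') (hgh : ∀ i j c, g i j ≠ h c) :
    Function.Injective (hubE h g) := by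
  rintro ⟨⟨c, i⟩, j⟩ ⟨⟨c', i'⟩, j'⟩ hq
  unfold hubE at hq
  simp only [Sym2.eq_iff] at hq
  rcases hq with ⟨h1, h2⟩ | ⟨h1, h2⟩
  · obtain ⟨h3, h4⟩ := hg _ _ _ _ h2
    rw [hh h1, h3, h4]
  · exact absurd h2 (hgh _ _ _)

theorem hubE_mem {h : Fin 2 → Fin n} {g : Fin s → Fin b → Fin n}
    (hgh : ∀ i j c, g i j ≠ h c) (q : (Fin 2 × Fin s) × Fin b) : hubE h g q ∈ pairs n := by
  unfold hubE
  rw [mk_mem_pairs]
  exact (hgh _ _ _).symm

/-- selected triples -/
def selT (f f' : Fin s → Fin b) : Finset ((Fin 2 × Fin s) × Fin b) :=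
  Finset.univ.filter (fun q => q.2 = f q.1.2 ∨ q.2 = f' q.1.2)

theorem prod_selT (f f' : Fin s → Fin b) (p : ℝ) :
    ∏ _q ∈ selT f f', p = ∏ i : Fin s, (if f i = f' i then p ^ 2 else p ^ 4) := by
  unfold selT
  rw [Finset.prod_filter, Fintype.prod_prod_type, Fintype.prod_prod_type, Fin.prod_univ_two,
    ← Finset.prod_mul_distrib]
  apply Finset.prod_congr rfl
  intro i _
  have key : ∏ x : Fin b, (if x = f i ∨ x = f' i then p else 1) =
      if f i = f' i then p else p ^ 2 := by
    split_ifs with h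
    · rw [h]
      simp
    · have h1 : ∀ x : Fin b, (if x = f i ∨ x = f' i then p else 1) =
          (if x = f i then p else 1) * (if x = f' i then p else 1) := by
        intro x
        by_cases h1 : x = f i
        · have h2 : x ≠ f' i := fun h3 => h (h1.symm.trans h3)
          simp [h1, h]
        · simp [h1]
      simp only [h1]
      rw [Finset.prod_mul_distrib]
      simp
      ring
  simp only [key]
  split_ifs <;> ring

variable (h : Fin 2 → Fin n) (g : Fin s → Fin b → Fin n)

open Classical in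
/-- indicator that the choice `f` of one vertex in each block gives common neighbours -/
noncomputable def ind (f : Fin s → Fin b) (G : SimpleGraph (Fin n)) : ℝ :=
  if (((selT f f).image (hubE h g) : Finset (Sym2 (Fin n))) : Set (Sym2 (Fin n))) ⊆ G.edgeSet
    then 1 else 0

variable {h g}

theorem expect_ind_mul (hh : Function.Injective h)
    (hg : ∀ i j i' j', g i j = g i' j' → i = i' ∧ j = j') (hgh : ∀ i j c, g i j ≠ h c)
    (p : ℝ) (f f' : Fin s → Fin b) :
    expect (fun _ => p) (fun G => ind h g f G * ind h g f' G) =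
      ∏ i : Fin s, (if f i = f' i then p ^ 2 else p ^ 4) := by
  classical
  have h1 : (fun G : SimpleGraph (Fin n) => ind h g f G * ind h g f' G) = fun G =>
      if (((selT f f').image (hubE h g) : Finset (Sym2 (Fin n))) : Set (Sym2 (Fin n))) ⊆ G.edgeSet
        then (1:ℝ) else 0 := by
    funext G
    unfold ind
    have hiff : ((((selT f f').image (hubE h g) : Finset (Sym2 (Fin n))) : Set (Sym2 (Fin n))) ⊆
        G.edgeSet) ↔ ((((selT f f).image (hubE h g) : Finset (Sym2 (Fin n))) :
        Set (Sym2 (Fin n))) ⊆ G.edgeSet) ∧ ((((selT f' f').image (hubE h g) :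
        Finset (Sym2 (Fin n))) : Set (Sym2 (Fin n))) ⊆ G.edgeSet) := by
      rw [← Set.union_subset_iff, ← Finset.coe_union, ← Finset.image_union]
      have : selT f f' = selT f f ∪ selT f' f' := by
        unfold selT
        ext q
        simp
      rw [this]
    by_cases h1 : (((selT f f).image (hubE h g) : Finset (Sym2 (Fin n))) :
        Set (Sym2 (Fin n))) ⊆ G.edgeSet
    · by_cases h2 : (((selT f' f').image (hubE h g) : Finset (Sym2 (Fin n))) :
          Set (Sym2 (Fin n))) ⊆ G.edgeSet
      · rw [if_pos h1, if_pos h2, if_pos (hiff.mpr ⟨h1, h2⟩), one_mul]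
      · rw [if_pos h1, if_neg h2, if_neg (fun h3 => h2 (hiff.mp h3).2), mul_zero]
    · rw [if_neg h1, if_neg (fun h3 => h1 (hiff.mp h3).1), zero_mul]
  rw [h1, expect_incl]
  · rw [Finset.prod_image (fun a _ b _ hab => hubE_inj hh hg hgh hab), prod_selT]
  · intro e he
    obtain ⟨q, _, rfl⟩ := Finset.mem_image.mp he
    exact hubE_mem hgh q

theorem ind_sq (f : Fin s → Fin b) (G : SimpleGraph (Fin n)) : ind h g f G * ind h g f G = ind h g f G := by
  unfold ind
  split_ifs <;> simp

theorem ind_nonneg (f : Fin s → Fin b) (G : SimpleGraph (Fin n)) : 0 ≤ ind h g f G := by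
  unfold ind
  split_ifs <;> simp

theorem weight_const_nonneg {p : ℝ} (hp0 : 0 ≤ p) (hp1 : p ≤ 1) (G : SimpleGraph (Fin n)) :
    0 ≤ weight (fun _ => p) G := weight_nonneg (fun _ _ => ⟨hp0, hp1⟩) G

/-- second moment lower bound -/
theorem prob_ge (hh : Function.Injective h)
    (hg : ∀ i j i' j', g i j = g i' j' → i = i' ∧ j = j') (hgh : ∀ i j c, g i j ≠ h c)
    {p : ℝ} (hp0 : 0 < p) (hp1 : p ≤ 1) (hb : 1 ≤ b) (hbp : b * p ^ 2 ≤ 1) :
    (b * p ^ 2 / 2) ^ s ≤ prob (fun _ => p) (fun G => ∃ f, ind h g f G ≠ 0) := by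
  classical
  have hw := fun G => weight_const_nonneg (n := n) hp0.le hp1 G
  set P := prob (n := n) (fun _ => p) (fun G => ∃ f, ind h g f G ≠ 0) with hP
  have hP0 : 0 ≤ P := by
    rw [hP]
    unfold prob expect
    apply Finset.sum_nonneg
    intro G _
    apply mul_nonneg (hw G)
    beta_reduce
    split_ifs <;> norm_num
  -- first moment
  have hE1 : expect (n := n) (fun _ => p) (fun G => ∑ f, ind h g f G) = (b * p ^ 2) ^ s := by
    rw [expect_sum]
    have : ∀ f : Fin s → Fin b, expect (n := n) (fun _ => p) (ind h g f) = (p ^ 2) ^ s := by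
      intro f
      have h1 := expect_ind_mul hh hg hgh p f f
      simp only [ind_sq] at h1
      have h2 : expect (n := n) (fun _ => p) (ind h g f) =
        expect (n := n) (fun _ => p) (fun G => ind h g f G) := rfl
      rw [h2, h1]
      simp
    rw [Finset.sum_congr rfl (fun f _ => this f), Finset.sum_const, Finset.card_univ,
      Fintype.card_fun, Fintype.card_fin, Fintype.card_fin, nsmul_eq_mul, mul_pow]
    push_cast
    ring
  -- second moment
  have hE2 : expect (n := n) (fun _ => p) (fun G => (∑ f, ind h g f G) ^ 2) ≤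
      (b * (2 * p ^ 2)) ^ s := by
    have h1 : (fun G : SimpleGraph (Fin n) => (∑ f, ind h g f G) ^ 2) = fun G =>
        ∑ f, ∑ f', ind h g f G * ind h g f' G := by
      funext G
      rw [sq, Finset.sum_mul_sum]
    rw [h1, expect_sum]
    have h2 : ∀ f : Fin s → Fin b, expect (n := n) (fun _ => p)
        (fun G => ∑ f', ind h g f G * ind h g f' G) ≤ (2 * p ^ 2) ^ s := by
      intro f
      rw [expect_sum]
      rw [Finset.sum_congr rfl (fun f' _ => expect_ind_mul hh hg hgh p f f')]
      have h3 : ∑ f' : Fin s → Fin b, ∏ i : Fin s, (if f i = f' i then p ^ 2 else p ^ 4) =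
          ∏ i : Fin s, ∑ j : Fin b, (if f i = j then p ^ 2 else p ^ 4) := by
        rw [Finset.prod_univ_sum, Fintype.piFinset_univ]
      rw [h3]
      have h4 : ∀ i : Fin s, ∑ j : Fin b, (if f i = j then p ^ 2 else p ^ 4) ≤ 2 * p ^ 2 := by
        intro i
        have h5 : ∀ j : Fin b, (if f i = j then p ^ 2 else p ^ 4) ≤
            (if f i = j then p ^ 2 else 0) + p ^ 4 := by
          intro j
          split_ifs
          · have : (0:ℝ) ≤ p ^ 4 := by positivity
            linarith
          · linarith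
        calc ∑ j : Fin b, (if f i = j then p ^ 2 else p ^ 4)
            ≤ ∑ j : Fin b, ((if f i = j then p ^ 2 else 0) + p ^ 4) :=
              Finset.sum_le_sum (fun j _ => h5 j)
          _ = p ^ 2 + b * p ^ 4 := by
              rw [Finset.sum_add_distrib]
              simp
          _ ≤ 2 * p ^ 2 := by
              have : (b : ℝ) * p ^ 4 = (b * p ^ 2) * p ^ 2 := by ring
              rw [this]
              nlinarith [sq_nonneg p]
      calc ∏ i : Fin s, ∑ j : Fin b, (if f i = j then p ^ 2 else p ^ 4)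
          ≤ ∏ _i : Fin s, (2 * p ^ 2) := by
            apply Finset.prod_le_prod
            · intro i _
              apply Finset.sum_nonneg
              intro j _
              split_ifs <;> positivity
            · intro i _
              exact h4 i
        _ = (2 * p ^ 2) ^ s := by simp
    calc ∑ f : Fin s → Fin b, expect (n := n) (fun _ => p)
          (fun G => ∑ f', ind h g f G * ind h g f' G)
        ≤ ∑ _f : Fin s → Fin b, (2 * p ^ 2) ^ s := Finset.sum_le_sum (fun f _ => h2 f)
      _ = (b * (2 * p ^ 2)) ^ s := by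
          rw [Finset.sum_const, Finset.card_univ, Fintype.card_fun, Fintype.card_fin,
            Fintype.card_fin, nsmul_eq_mul, mul_pow (b : ℝ)]
          push_cast
          ring
  -- Cauchy-Schwarz
  have hCS : (expect (n := n) (fun _ => p) (fun G => ∑ f, ind h g f G)) ^ 2 ≤
      P * expect (n := n) (fun _ => p) (fun G => (∑ f, ind h g f G) ^ 2) := by
    rw [hP]
    unfold prob expect
    apply Finset.sum_sq_le_sum_mul_sum_of_sq_le_mul
    · intro G _
      apply mul_nonneg (hw G)
      beta_reduce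
      split_ifs <;> norm_num
    · intro G _
      exact mul_nonneg (hw G) (sq_nonneg _)
    · intro G _
      beta_reduce
      by_cases hG : ∃ f, ind h g f G ≠ 0
      · rw [if_pos hG]
        apply le_of_eq
        ring
      · rw [if_neg hG]
        push Not at hG
        have : ∑ f, ind h g f G = 0 := Finset.sum_eq_zero (fun f _ => hG f)
        rw [this]
        simp
  rw [hE1] at hCS
  have hb0 : (0:ℝ) < b := by exact_mod_cast hb
  have h1 : ((b * p ^ 2) ^ s) ^ 2 ≤ P * (b * (2 * p ^ 2)) ^ s :=
    hCS.trans (mul_le_mul_of_nonneg_left hE2 hP0)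
  have h2 : (b * p ^ 2 / 2) ^ s * (b * (2 * p ^ 2)) ^ s = ((b * p ^ 2) ^ s) ^ 2 := by
    rw [← mul_pow, ← pow_mul, mul_comm s 2, pow_mul]
    congr 1
    ring
  rw [← h2] at h1
  exact le_of_mul_le_mul_right h1 (by positivity)

theorem copies_ge_of_ind (hh : Function.Injective h)
    (hg : ∀ i j i' j', g i j = g i' j' → i = i' ∧ j = j') (hgh : ∀ i j c, g i j ≠ h c)
    {G : SimpleGraph (Fin n)} {f : Fin s → Fin b} (hf : ind h g f G ≠ 0) (l : ℕ) :
    2 * s.descFactorial l ≤ copies (KK l) G := by
  classical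
  have hsub : (((selT f f).image (hubE h g) : Finset (Sym2 (Fin n))) : Set (Sym2 (Fin n))) ⊆
      G.edgeSet := by
    by_contra hcon
    apply hf
    unfold ind
    rw [if_neg hcon]
  have hadj : ∀ c i, G.Adj (h c) (g i (f i)) := by
    intro c i
    rw [← SimpleGraph.mem_edgeSet]
    apply hsub
    rw [Finset.mem_coe, Finset.mem_image]
    refine ⟨((c, i), f i), ?_, rfl⟩
    unfold selT
    simp
  -- embedding
  set Φ : Fin 2 × (Fin l ↪ Fin s) →
      {φ : Fin 2 ⊕ Fin l ↪ Fin n // ∀ u v, (KK l).Adj u v → G.Adj (φ u) (φ v)} := fun t =>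
    ⟨⟨fun u => Sum.elim (fun c => h (c + t.1)) (fun j => g (t.2 j) (f (t.2 j))) u, by
      intro u v huv
      rcases u with u | u <;> rcases v with v | v
      · simp only [Sum.elim_inl] at huv
        have := hh huv
        rw [add_left_inj] at this
        rw [this]
      · simp only [Sum.elim_inl, Sum.elim_inr] at huv
        exact absurd huv.symm (hgh _ _ _)
      · simp only [Sum.elim_inl, Sum.elim_inr] at huv
        exact absurd huv (hgh _ _ _)
      · simp only [Sum.elim_inr] at huv
        have := (hg _ _ _ _ huv).1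
        rw [t.2.injective this]⟩, by
      intro u v huv
      rcases u with u | u <;> rcases v with v | v
      · simp at huv
      · exact hadj _ _
      · exact (hadj _ _).symm
      · simp at huv⟩ with hΦ
  have hΦinj : Function.Injective Φ := by
    rintro ⟨c, τ⟩ ⟨c', τ'⟩ hcc
    have h1 := congrArg Subtype.val hcc
    have h2 : h (0 + c) = h (0 + c') := DFunLike.congr_fun h1 (Sum.inl 0)
    rw [zero_add, zero_add] at h2
    have h3 : c = c' := hh h2
    have h4 : τ = τ' := by
      ext j
      have h5 : g (τ j) (f (τ j)) = g (τ' j) (f (τ' j)) := DFunLike.congr_fun h1 (Sum.inr j)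
      rw [(hg _ _ _ _ h5).1]
    rw [h3, h4]
  have hcard := Fintype.card_le_of_injective Φ hΦinj
  rw [Fintype.card_prod, Fintype.card_fin, Fintype.card_embedding_eq, Fintype.card_fin,
    Fintype.card_fin] at hcard
  unfold copies
  rw [Nat.card_eq_fintype_card]
  exact hcard

end

theorem ncard_edgeSet_KK (l : ℕ) : (KK l).edgeSet.ncard = 2 * l := by
  rw [Set.ncard_def, SimpleGraph.encard_edgeSet_completeBipartiteGraph]
  simp

/-- The lower bound for the upper tail. -/
theorem upperTail_ge {n l s b : ℕ} (hn : 2 + s * b ≤ n) (hb : 1 ≤ b) {p δ : ℝ} (hp0 : 0 < p)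
    (hp1 : p ≤ 1) (hbp : b * p ^ 2 ≤ 1)
    (hs : (1 + δ) * (n : ℝ) ^ (l + 2) * p ^ (2 * l) ≤ 2 * (((s + 1 - l : ℕ) : ℝ)) ^ l) :
    (b * p ^ 2 / 2) ^ s ≤ upperTail (KK l) n p δ := by
  classical
  set h : Fin 2 → Fin n := fun c => ⟨c, by have := c.2; omega⟩ with hh
  have hlt : ∀ (i : Fin s) (j : Fin b), 2 + (i * b + j) < n := by
    intro i j
    have h1 : (i : ℕ) * b + j < s * b := by
      have h2 := i.2
      have h3 := j.2
      have h4 : ((i : ℕ) + 1) * b ≤ s * b := Nat.mul_le_mul_right b h2
      have h5 : ((i : ℕ) + 1) * b = i * b + b := by ring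
      omega
    omega
  set g : Fin s → Fin b → Fin n := fun i j => ⟨2 + (i * b + j), hlt i j⟩ with hg
  have hhinj : Function.Injective h := by
    intro c c' hc
    simp only [hh, Fin.mk.injEq] at hc
    exact Fin.ext hc
  have hginj : ∀ i j i' j', g i j = g i' j' → i = i' ∧ j = j' := by
    intro i j i' j' hij
    simp only [hg, Fin.mk.injEq] at hij
    have hj := j.2
    have hj' := j'.2
    have h1 : (i : ℕ) * b + j = i' * b + j' := by omega
    have h2 : (i : ℕ) = i' := by
      have e1 : ((i : ℕ) * b + j) / b = i := by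
        rw [mul_comm, Nat.mul_add_div (by omega), Nat.div_eq_of_lt hj, add_zero]
      have e2 : ((i' : ℕ) * b + j') / b = i' := by
        rw [mul_comm, Nat.mul_add_div (by omega), Nat.div_eq_of_lt hj', add_zero]
      rw [← e1, ← e2, h1]
    refine ⟨Fin.ext h2, Fin.ext ?_⟩
    rw [h2] at h1
    omega
  have hgh : ∀ i j c, g i j ≠ h c := by
    intro i j c hc
    simp only [hg, hh, Fin.mk.injEq] at hc
    have := c.2
    omega
  refine (prob_ge hhinj hginj hgh hp0 hp1 hb hbp).trans ?_
  unfold upperTail prob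
  apply expect_mono (fun _ _ => ⟨hp0.le, hp1⟩)
  intro G
  by_cases hG : ∃ f, ind h g f G ≠ 0
  · rw [if_pos hG, if_pos]
    obtain ⟨f, hf⟩ := hG
    have h1 := copies_ge_of_ind hhinj hginj hgh hf l
    have h2 : ((2 * s.descFactorial l : ℕ) : ℝ) ≤ copies (KK l) G := by exact_mod_cast h1
    have h3 : ((s + 1 - l : ℕ) : ℝ) ^ l ≤ (s.descFactorial l : ℝ) := by
      exact_mod_cast Nat.pow_sub_le_descFactorial s l
    have h4 : Fintype.card (Fin 2 ⊕ Fin l) = l + 2 := by simp [add_comm]
    rw [h4, ncard_edgeSet_KK]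
    push_cast at h2
    linarith
  · rw [if_neg hG]
    split_ifs <;> norm_num

end Pool.Agent.Lib.MP_2bf17e_pr
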