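import Pool.Agent.Lib.MP_2bf17e_pr.Basic
open Filter Topology Finset

namespace Pool.Agent.Lib.MP_2bf17e_pr

/-- `K_{2,l}` -/
abbrev KK (l : ℕ) : SimpleGraph (Fin 2 ⊕ Fin l) := completeBipartiteGraph (Fin 2) (Fin l)

/-- the image edges of an embedding -/
def imgE {n l : ℕ} (φ : Fin 2 ⊕ Fin l ↪ Fin n) : Finset (Sym2 (Fin n)) :=
  (Finset.univ : Finset (Fin 2 × Fin l)).image (fun q => s(φ (Sum.inl q.1), φ (Sum.inr q.2)))

theorem imgE_inj {n l : ℕ} (φ : Fin 2 ⊕ Fin l ↪ Fin n) :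
    Function.Injective (fun q : Fin 2 × Fin l => s(φ (Sum.inl q.1), φ (Sum.inr q.2))) := by
  rintro ⟨a, b⟩ ⟨c, d⟩ h
  simp only [Sym2.eq_iff, EmbeddingLike.apply_eq_iff_eq] at h
  rcases h with ⟨h1, h2⟩ | ⟨h1, h2⟩
  · rw [Sum.inl.inj h1, Sum.inr.inj h2]
  · exact absurd h1 (by simp)

theorem imgE_subset {n l : ℕ} (φ : Fin 2 ⊕ Fin l ↪ Fin n) : imgE φ ⊆ pairs n := by
  intro e he
  unfold imgE at he
  obtain ⟨q, _, rfl⟩ := Finset.mem_image.mp he
  rw [mk_mem_pairs]
  intro h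
  exact absurd (φ.injective h) (by simp)

open Classical in
theorem copies_eq {n l : ℕ} (G : SimpleGraph (Fin n)) :
    (copies (KK l) G : ℝ) = ∑ φ : Fin 2 ⊕ Fin l ↪ Fin n,
      if ((imgE φ : Finset (Sym2 (Fin n))) : Set (Sym2 (Fin n))) ⊆ G.edgeSet then 1 else 0 := by
  unfold copies
  rw [Nat.card_eq_fintype_card, Fintype.card_subtype, Finset.sum_boole]
  congr 2
  ext φ
  simp only [Finset.mem_filter, Finset.mem_univ, true_and]
  constructor
  · intro h e he
    rw [Finset.mem_coe] at he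
    unfold imgE at he
    obtain ⟨q, _, rfl⟩ := Finset.mem_image.mp he
    rw [SimpleGraph.mem_edgeSet]
    exact h _ _ (by simp)
  · intro h u v huv
    have key : ∀ (i : Fin 2) (j : Fin l), G.Adj (φ (Sum.inl i)) (φ (Sum.inr j)) := by
      intro i j
      rw [← SimpleGraph.mem_edgeSet]
      apply h
      rw [Finset.mem_coe]
      unfold imgE
      exact Finset.mem_image.mpr ⟨(i, j), Finset.mem_univ _, rfl⟩
    rcases u with u | u <;> rcases v with v | v
    · simp at huv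
    · exact key u v
    · exact (key v u).symm
    · simp at huv

theorem prod_imgE {n l : ℕ} (φ : Fin 2 ⊕ Fin l ↪ Fin n) (ξ : Sym2 (Fin n) → ℝ) :
    ∏ e ∈ imgE φ, ξ e = ∏ j : Fin l, (ξ s(φ (Sum.inl 0), φ (Sum.inr j)) *
      ξ s(φ (Sum.inl 1), φ (Sum.inr j))) := by
  unfold imgE
  rw [Finset.prod_image (fun a _ b _ h => imgE_inj φ h), Fintype.prod_prod_type_right]
  apply Finset.prod_congr rfl
  intro j _
  rw [Fin.prod_univ_two]

theorem expect_copies {n l : ℕ} (ξ : Sym2 (Fin n) → ℝ) :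
    expect ξ (fun G => (copies (KK l) G : ℝ)) = ∑ φ : Fin 2 ⊕ Fin l ↪ Fin n,
      ∏ j : Fin l, (ξ s(φ (Sum.inl 0), φ (Sum.inr j)) * ξ s(φ (Sum.inl 1), φ (Sum.inr j))) := by
  classical
  have h1 : (fun G : SimpleGraph (Fin n) => (copies (KK l) G : ℝ)) = fun G =>
      ∑ φ : Fin 2 ⊕ Fin l ↪ Fin n,
      if ((imgE φ : Finset (Sym2 (Fin n))) : Set (Sym2 (Fin n))) ⊆ G.edgeSet then (1:ℝ) else 0 := by
    funext G
    exact copies_eq G
  rw [h1, expect_sum]
  apply Finset.sum_congr rfl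
  intro φ _
  rw [expect_incl ξ (imgE φ) (imgE_subset φ), prod_imgE]

theorem expect_copies_const {n l : ℕ} (p : ℝ) :
    expect (n := n) (fun _ => p) (fun G => (copies (KK l) G : ℝ)) =
      (n.descFactorial (l + 2) : ℝ) * p ^ (2 * l) := by
  rw [expect_copies]
  simp only [Finset.prod_const, Finset.card_univ, Fintype.card_fin, Finset.sum_const,
    Fintype.card_embedding_eq, Fintype.card_sum, nsmul_eq_mul]
  rw [add_comm 2 l, ← sq, ← pow_mul]

/-- off-diagonal matrix entries -/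
def off {n : ℕ} (ξ : Sym2 (Fin n) → ℝ) (x v : Fin n) : ℝ := if x = v then 0 else ξ s(x, v)

/-- codegree sums -/
def SSum {n : ℕ} (ξ : Sym2 (Fin n) → ℝ) (x y : Fin n) : ℝ := ∑ v, off ξ x v * off ξ y v

theorem off_nonneg {n : ℕ} {ξ : Sym2 (Fin n) → ℝ} (h : ∀ e ∈ pairs n, 0 ≤ ξ e) (x v : Fin n) :
    0 ≤ off ξ x v := by
  unfold off
  split_ifs with h1
  · exact le_refl 0
  · exact h _ (mk_mem_pairs.mpr h1)

theorem expect_copies_le {n l : ℕ} {ξ : Sym2 (Fin n) → ℝ} (h : ∀ e ∈ pairs n, 0 ≤ ξ e) :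
    expect ξ (fun G => (copies (KK l) G : ℝ)) ≤
      ∑ x : Fin n, ∑ y : Fin n, if x = y then 0 else SSum ξ x y ^ l := by
  classical
  rw [expect_copies]
  set Φ : (Fin 2 ⊕ Fin l ↪ Fin n) → (Fin n × Fin n) × (Fin l → Fin n) :=
    fun φ => ((φ (Sum.inl 0), φ (Sum.inl 1)), fun j => φ (Sum.inr j)) with hΦ
  have hinj : Function.Injective Φ := by
    intro φ ψ hφψ
    simp only [hΦ, Prod.mk.injEq] at hφψ
    ext u
    rcases u with u | u
    · fin_cases u
      · exact congrArg _ hφψ.1.1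
      · exact congrArg _ hφψ.1.2
    · exact congrArg _ (congrFun hφψ.2 u)
  set g : (Fin n × Fin n) × (Fin l → Fin n) → ℝ := fun t =>
    if t.1.1 = t.1.2 then 0 else ∏ j, (off ξ t.1.1 (t.2 j) * off ξ t.1.2 (t.2 j)) with hg
  have hgnn : ∀ t, 0 ≤ g t := by
    intro t
    simp only [hg]
    split_ifs
    · exact le_refl 0
    · exact Finset.prod_nonneg (fun j _ => mul_nonneg (off_nonneg h _ _) (off_nonneg h _ _))
  have h1 : ∀ φ : Fin 2 ⊕ Fin l ↪ Fin n, ∏ j : Fin l, (ξ s(φ (Sum.inl 0), φ (Sum.inr j)) *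
      ξ s(φ (Sum.inl 1), φ (Sum.inr j))) = g (Φ φ) := by
    intro φ
    simp only [hg, hΦ]
    rw [if_neg (fun hh => absurd (φ.injective hh) (by simp))]
    apply Finset.prod_congr rfl
    intro j _
    unfold off
    rw [if_neg (fun hh => absurd (φ.injective hh) (by simp)),
      if_neg (fun hh => absurd (φ.injective hh) (by simp))]
  rw [Finset.sum_congr rfl (fun φ _ => h1 φ)]
  calc ∑ φ : Fin 2 ⊕ Fin l ↪ Fin n, g (Φ φ) = ∑ t ∈ Finset.univ.image Φ, g t := by
        rw [Finset.sum_image (fun a _ b _ hh => hinj hh)]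
    _ ≤ ∑ t, g t := Finset.sum_le_sum_of_subset_of_nonneg (Finset.subset_univ _)
        (fun t _ _ => hgnn t)
    _ = ∑ x : Fin n, ∑ y : Fin n, if x = y then 0 else SSum ξ x y ^ l := by
        rw [Fintype.sum_prod_type, Fintype.sum_prod_type]
        apply Finset.sum_congr rfl
        intro x _
        apply Finset.sum_congr rfl
        intro y _
        simp only [hg]
        split_ifs with hxy
        · simp
        · unfold SSum
          rw [Fintype.sum_pow]

end Pool.Agent.Lib.MP_2bf17e_pr
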