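import Mathlib
open Filter Topology

namespace Pool.Agent.Lib.MP_2bf17e_pr

/-- `H` is strictly balanced: `e_J / v_J < e_H / v_H` for every proper (nonempty) subgraph `J`. -/
def StrictlyBalanced {V : Type} [Fintype V] (H : SimpleGraph V) : Prop :=
  ∀ J : H.Subgraph, J ≠ ⊤ → J.verts.Nonempty →
    (J.edgeSet.ncard : ℝ) / J.verts.ncard < (H.edgeSet.ncard : ℝ) / Fintype.card V

/-- The fractional independence number `α*_H`. -/
noncomputable def fracIndep {V : Type} [Fintype V] (H : SimpleGraph V) : ℝ :=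
  sSup {s : ℝ | ∃ α : V → ℝ, (∀ v, 0 ≤ α v ∧ α v ≤ 1) ∧ (∀ u v, H.Adj u v → α u + α v ≤ 1) ∧
    s = ∑ v, α v}

/-- The set of the `binom n 2` pairs in `{0, …, n-1}`. -/
noncomputable def pairs (n : ℕ) : Finset (Sym2 (Fin n)) :=
  (⊤ : SimpleGraph (Fin n)).edgeFinset

/-- `N(H, G)`: the number of injective maps `V(H) → V(G)` sending edges of `H` to edges of `G`. -/
noncomputable def copies {V : Type} {n : ℕ} (H : SimpleGraph V) (G : SimpleGraph (Fin n)) : ℕ :=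
  Nat.card {φ : V ↪ Fin n // ∀ u v, H.Adj u v → G.Adj (φ u) (φ v)}

open Classical in
/-- The probability of the graph `G` under `μ_ξ`. -/
noncomputable def weight {n : ℕ} (ξ : Sym2 (Fin n) → ℝ) (G : SimpleGraph (Fin n)) : ℝ :=
  ∏ e ∈ pairs n, if e ∈ G.edgeSet then ξ e else 1 - ξ e

/-- The expectation of `f` under `μ_ξ`. -/
noncomputable def expect {n : ℕ} (ξ : Sym2 (Fin n) → ℝ) (f : SimpleGraph (Fin n) → ℝ) : ℝ :=
  ∑ G : SimpleGraph (Fin n), weight ξ G * f G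

open Classical in
/-- The probability of the event `A` under `μ_ξ`. -/
noncomputable def prob {n : ℕ} (ξ : Sym2 (Fin n) → ℝ) (A : SimpleGraph (Fin n) → Prop) : ℝ :=
  expect ξ (fun G => if A G then 1 else 0)

/-- `I_p(x) = x log (x/p) + (1-x) log ((1-x)/(1-p))`. -/
noncomputable def relEnt (p x : ℝ) : ℝ :=
  x * Real.log (x / p) + (1 - x) * Real.log ((1 - x) / (1 - p))

/-- `I_p(ξ) = ∑_e I_p(ξ_e)`. -/
noncomputable def totEnt {n : ℕ} (p : ℝ) (ξ : Sym2 (Fin n) → ℝ) : ℝ :=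
  ∑ e ∈ pairs n, relEnt p (ξ e)

/-- The set of `ξ ∈ [0,1]^M` with `E_{μ_ξ}[N(H, ·)] ≥ (1+δ) E_{μ_p}[N(H, ·)]`. -/
def admissible {V : Type} (H : SimpleGraph V) (n : ℕ) (p δ : ℝ) : Set (Sym2 (Fin n) → ℝ) :=
  {ξ | (∀ e ∈ pairs n, 0 ≤ ξ e ∧ ξ e ≤ 1) ∧
    (1 + δ) * expect (n := n) (fun _ => p) (fun G => (copies H G : ℝ)) ≤
      expect ξ (fun G => (copies H G : ℝ))}

/-- `Ψ_{p,H}(δ)`. -/
noncomputable def Psi {V : Type} (H : SimpleGraph V) (n : ℕ) (p δ : ℝ) : ℝ :=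
  sInf (totEnt p '' admissible H n p δ)

/-- `P(N(H, G(n,p)) ≥ (1+δ) n^{v_H} p^{e_H})`. -/
noncomputable def upperTail {V : Type} [Fintype V] (H : SimpleGraph V) (n : ℕ) (p δ : ℝ) : ℝ :=
  prob (n := n) (fun _ => p)
    (fun G => (1 + δ) * (n : ℝ) ^ Fintype.card V * p ^ H.edgeSet.ncard ≤ (copies H G : ℝ))

open Classical in
/-- The standing assumptions of Q1 on the sequence `p_n ∈ (0,1)`:
`p ≪ n^{-1/Δ}` and `n^{v_H} p^{e_H} ≫ (log n)^{α*_H/(α*_H - 1)}`. -/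
structure InRange {V : Type} [Fintype V] (H : SimpleGraph V) (p : ℕ → ℝ) : Prop where
  mem : ∀ n, 0 < p n ∧ p n < 1
  upper : Tendsto (fun n : ℕ => p n / (n : ℝ) ^ (-(1 / (H.maxDegree : ℝ)))) atTop (𝓝 0)
  lower : Tendsto (fun n : ℕ => Real.log n ^ (fracIndep H / (fracIndep H - 1)) /
    ((n : ℝ) ^ Fintype.card V * p n ^ H.edgeSet.ncard)) atTop (𝓝 0)

end Pool.Agent.Lib.MP_2bf17e_pr
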