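import Pool.Agent.Lib.MP_2bf17e_pr.Defs
open Filter Topology Finset

namespace Pool.Agent.Lib.MP_2bf17e_pr

theorem log_lb {a b : ℝ} (ha : 0 ≤ a) (hb : 0 < b) : a - b ≤ a * Real.log (a / b) := by
  rcases eq_or_lt_of_le ha with h | h
  · rw [← h]; simp; exact hb.le
  · have h1 := Real.one_sub_inv_le_log_of_pos (div_pos h hb)
    have h2 : a * (1 - (a / b)⁻¹) = a - b := by field_simp
    rw [← h2]
    exact mul_le_mul_of_nonneg_left h1 ha

theorem relEnt_ge {p x : ℝ} (hp1 : p < 1) (hx1 : x ≤ 1) :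
    x * Real.log (x / p) - (x - p) ≤ relEnt p x := by
  have h1 := log_lb (a := 1 - x) (b := 1 - p) (by linarith) (by linarith)
  unfold relEnt
  linarith

theorem relEnt_nonneg {p x : ℝ} (hp0 : 0 < p) (hp1 : p < 1) (hx0 : 0 ≤ x) (hx1 : x ≤ 1) :
    0 ≤ relEnt p x := by
  have h1 := relEnt_ge hp1 hx1
  have h2 := log_lb hx0 hp0
  linarith

theorem relEnt_ge_linear {p x : ℝ} (hp0 : 0 < p) (hp1 : p < 1) (hx0 : 0 ≤ x) (hx1 : x ≤ 1) :
    max (x - p) 0 ≤ relEnt p x + p := by
  apply max_le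
  · have h1 := relEnt_ge hp1 hx1
    have he : Real.exp 1 < 3 := lt_trans Real.exp_one_lt_d9 (by norm_num)
    have he0 : 0 < Real.exp 1 := Real.exp_pos 1
    rcases eq_or_lt_of_le hx0 with h | h
    · rw [← h] at h1 ⊢
      have := relEnt_nonneg hp0 hp1 (le_refl (0:ℝ)) (by norm_num)
      linarith
    · have h2 := log_lb hx0 (mul_pos he0 hp0)
      have h3 : Real.log (x / (Real.exp 1 * p)) = Real.log (x / p) - 1 := by
        rw [show x / (Real.exp 1 * p) = (x / p) / Real.exp 1 by field_simp,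
          Real.log_div (by positivity) (by positivity), Real.log_exp]
      rw [h3] at h2
      nlinarith
  · have := relEnt_nonneg hp0 hp1 hx0 hx1
    linarith

theorem relEnt_ge_sq {p x : ℝ} (hp0 : 0 < p) (hp1 : p < 1) (hx0 : 0 ≤ x) (hx1 : x ≤ 1)
    (hL : 1 ≤ Real.log (1 / p)) :
    (Real.log (1 / p) - Real.log (4 * Real.log (1 / p)) - 1) * max (x - p) 0 ^ 2 ≤ relEnt p x := by
  set Λ := Real.log (1 / p) with hΛ
  have hnn := relEnt_nonneg hp0 hp1 hx0 hx1
  rcases le_or_gt x p with hxp | hxp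
  · rw [max_eq_right (by linarith)]
    simpa using hnn
  rw [max_eq_left (by linarith)]
  have hx : 0 < x := lt_trans hp0 hxp
  have hlog4 : 0 ≤ Real.log (4 * Λ) := Real.log_nonneg (by linarith)
  rcases le_or_gt x (1 / (4 * Λ)) with hc | hc
  · -- small case
    have h1 : (Real.sqrt x - Real.sqrt p) ^ 2 ≤ relEnt p x := by
      refine le_trans ?_ (relEnt_ge hp1 hx1)
      have h2 : Real.log (x / p) = 2 * Real.log (Real.sqrt x / Real.sqrt p) := by
        rw [← Real.sqrt_div hx0, Real.log_sqrt (by positivity)]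
        ring
      have hsx : 0 < Real.sqrt x := Real.sqrt_pos.mpr hx
      have hsp : 0 < Real.sqrt p := Real.sqrt_pos.mpr hp0
      have h3 := log_lb hsx.le hsp
      have hxx : Real.sqrt x * Real.sqrt x = x := Real.mul_self_sqrt hx0
      have hpp : Real.sqrt p * Real.sqrt p = p := Real.mul_self_sqrt hp0.le
      have h4 : x * Real.log (x / p) = 2 * Real.sqrt x * (Real.sqrt x *
          Real.log (Real.sqrt x / Real.sqrt p)) := by
        rw [h2]
        nth_rewrite 1 [← hxx]
        ring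
      rw [h4]
      nlinarith
    have h2 : (x - p) ^ 2 / (4 * x) ≤ (Real.sqrt x - Real.sqrt p) ^ 2 := by
      have hsx : 0 < Real.sqrt x := Real.sqrt_pos.mpr hx
      have hsp : 0 < Real.sqrt p := Real.sqrt_pos.mpr hp0
      have hle : Real.sqrt p ≤ Real.sqrt x := Real.sqrt_le_sqrt hxp.le
      have hxx : Real.sqrt x ^ 2 = x := Real.sq_sqrt hx0
      have hpp : Real.sqrt p ^ 2 = p := Real.sq_sqrt hp0.le
      rw [div_le_iff₀ (by positivity)]
      have e1 : (x - p) ^ 2 = (Real.sqrt x - Real.sqrt p) ^ 2 * (Real.sqrt x + Real.sqrt p) ^ 2 := by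
        rw [← mul_pow]
        congr 1
        nlinarith
      rw [e1]
      apply mul_le_mul_of_nonneg_left _ (sq_nonneg _)
      nlinarith
    have h3 : Λ * (x - p) ^ 2 ≤ (x - p) ^ 2 / (4 * x) := by
      rw [le_div_iff₀ (by positivity)]
      rw [le_div_iff₀ (by positivity)] at hc
      nlinarith [sq_nonneg (x - p)]
    nlinarith [sq_nonneg (x - p)]
  · -- large case
    have h1 : Λ - Real.log (4 * Λ) ≤ Real.log (x / p) := by
      have h2 : Real.log (1 / (4 * Λ)) ≤ Real.log x := Real.log_le_log (by positivity) hc.le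
      rw [one_div, Real.log_inv] at h2
      have h3 : Real.log (x / p) = Real.log x + Λ := by
        rw [hΛ, Real.log_div hx.ne' hp0.ne', one_div, Real.log_inv]
        ring
      rw [h3]; linarith
    have h2 : x * (Λ - Real.log (4 * Λ) - 1) ≤ relEnt p x := by
      refine le_trans ?_ (relEnt_ge hp1 hx1)
      nlinarith
    rcases le_or_gt (Λ - Real.log (4 * Λ) - 1) 0 with h3 | h3
    · nlinarith [sq_nonneg (x - p)]
    · have h4 : (x - p) ^ 2 ≤ x := by nlinarith
      nlinarith

end Pool.Agent.Lib.MP_2bf17e_pr
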