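import Pool.Agent.Lib.MP_2bf17e_pr.Asym
open Filter Topology Finset

namespace Pool.Agent.Lib.MP_2bf17e_pr

theorem tendsto_log_nat : Tendsto (fun n : ℕ => Real.log n) atTop atTop :=
  Real.tendsto_log_atTop.comp tendsto_natCast_atTop_atTop

theorem tendsto_rpow_nat {a : ℝ} (ha : 0 < a) : Tendsto (fun n : ℕ => (n : ℝ) ^ a) atTop atTop :=
  (tendsto_rpow_atTop ha).comp tendsto_natCast_atTop_atTop

theorem tendsto_rpow_neg_nat {a : ℝ} (ha : 0 < a) :
    Tendsto (fun n : ℕ => (n : ℝ) ^ (-a)) atTop (𝓝 0) :=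
  (tendsto_rpow_neg_atTop ha).comp tendsto_natCast_atTop_atTop

theorem log_small {a c : ℝ} (ha : 0 < a) (hc : 0 < c) :
    ∀ᶠ n : ℕ in atTop, Real.log n ≤ c * (n : ℝ) ^ a := by
  have h1 := (isLittleO_log_rpow_atTop ha).bound hc
  have h2 := tendsto_natCast_atTop_atTop.eventually h1
  filter_upwards [h2] with n hn
  have h3 : (0:ℝ) ≤ (n : ℝ) ^ a := by positivity
  calc Real.log n ≤ ‖Real.log n‖ := Real.le_norm_self _
    _ ≤ _ := hn
    _ = _ := by rw [Real.norm_eq_abs, abs_of_nonneg h3]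

theorem om_eq {θ : ℝ} {n : ℕ} (hn : 1 ≤ n) :
    om ((n : ℝ) ^ (-θ)) = θ * Real.log n - Real.log (4 * (θ * Real.log n)) - 1 := by
  have hn0 : (0:ℝ) < n := by exact_mod_cast hn
  unfold om
  have : Real.log (1 / (n : ℝ) ^ (-θ)) = θ * Real.log n := by
    rw [one_div, ← Real.rpow_neg hn0.le, neg_neg, Real.log_rpow hn0]
  rw [this]

theorem log_inv_rpow {θ : ℝ} {n : ℕ} (hn : 1 ≤ n) :
    Real.log (1 / (n : ℝ) ^ (-θ)) = θ * Real.log n := by
  have hn0 : (0:ℝ) < n := by exact_mod_cast hn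
  rw [one_div, ← Real.rpow_neg hn0.le, neg_neg, Real.log_rpow hn0]

theorem om_tendsto {θ : ℝ} (hθ : 0 < θ) :
    Tendsto (fun n : ℕ => om ((n : ℝ) ^ (-θ)) / Real.log n) atTop (𝓝 θ) := by
  have h1 : Tendsto (fun x : ℝ => Real.log x / x) atTop (𝓝 0) := by
    have := Real.isLittleO_log_id_atTop.tendsto_div_nhds_zero
    simpa using this
  have h2 : Tendsto (fun x : ℝ => θ - (Real.log (4 * θ) / x + Real.log x / x) - 1 / x) atTop
      (𝓝 (θ - (0 + 0) - 0)) := by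
    apply Tendsto.sub
    · apply Tendsto.sub tendsto_const_nhds
      exact (tendsto_const_nhds.div_atTop tendsto_id).add h1
    · exact tendsto_const_nhds.div_atTop tendsto_id
  have h3 : θ - (0 + 0) - 0 = θ := by ring
  rw [h3] at h2
  have h4 := h2.comp tendsto_log_nat
  refine h4.congr' ?_
  filter_upwards [eventually_ge_atTop 1, tendsto_log_nat.eventually_gt_atTop 0] with n hn hx
  rw [om_eq hn]
  simp only [Function.comp]
  have e1 : Real.log (4 * (θ * Real.log n)) = Real.log (4 * θ) + Real.log (Real.log n) := by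
    rw [← mul_assoc, Real.log_mul (by positivity) hx.ne']
  rw [e1]
  field_simp

theorem desc_eventually {l : ℕ} {ε : ℝ} (hε : 0 < ε) :
    ∀ᶠ n : ℕ in atTop, (1 - ε) * (n : ℝ) ^ (l + 2) ≤ (n.descFactorial (l + 2) : ℝ) := by
  have h1 : ∀ᶠ n : ℕ in atTop, ((l + 2) * (l + 1) : ℝ) / ε ≤ n :=
    tendsto_natCast_atTop_atTop.eventually_ge_atTop _
  filter_upwards [h1, eventually_ge_atTop (l + 1)] with n hn hn2
  have hn0 : (0:ℝ) < n := by
    have : 0 < n := by omega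
    exact_mod_cast this
  have h2 : ((n + 1 - (l + 2) : ℕ) : ℝ) ^ (l + 2) ≤ (n.descFactorial (l + 2) : ℝ) := by
    exact_mod_cast Nat.pow_sub_le_descFactorial n (l + 2)
  refine le_trans ?_ h2
  have h3 : ((n + 1 - (l + 2) : ℕ) : ℝ) = n * (1 + -((l + 1 : ℝ) / n)) := by
    have : n + 1 - (l + 2) = n - (l + 1) := by omega
    rw [this, Nat.cast_sub hn2]
    push_cast
    field_simp
    ring
  rw [h3, mul_pow, mul_comm]
  apply mul_le_mul_of_nonneg_left _ (by positivity)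
  have h4 : (l + 1 : ℝ) / n ≤ 1 := by
    rw [div_le_one hn0]
    exact_mod_cast hn2
  have h5 := one_add_mul_le_pow (a := -((l + 1 : ℝ) / n)) (by linarith) (l + 2)
  refine le_trans ?_ h5
  have h6 : ((l + 2 : ℕ) : ℝ) * ((l + 1 : ℝ) / n) ≤ ε := by
    rw [div_le_iff₀ hε] at hn
    rw [mul_div_assoc', div_le_iff₀ hn0]
    push_cast
    linarith
  linarith

theorem main_eventually {l : ℕ} (hl : 3 ≤ l) {θ : ℝ} (h1 : 2 / (l : ℝ) < θ)
    (h2 : θ < 1 / 2 + 1 / (l : ℝ)) :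
    ∃ ε : ℝ, 0 < ε ∧ ε < 1 ∧ ∃ δ : ℝ, 0 < δ ∧ ∀ᶠ n : ℕ in atTop,
      0 < upperTail (KK l) n ((n : ℝ) ^ (-θ)) δ ∧
      (admissible (KK l) n ((n : ℝ) ^ (-θ)) (δ * (1 - ε))).Nonempty ∧
      -Real.log (upperTail (KK l) n ((n : ℝ) ^ (-θ)) δ) <
        (1 - ε) * Psi (KK l) n ((n : ℝ) ^ (-θ)) (δ * (1 - ε)) := by
  have hl0 : (0:ℝ) < l := by
    have : 0 < l := by omega
    exact_mod_cast this
  have hθ0 : 0 < θ := lt_trans (by positivity) h1
  have hθl : 2 < θ * l := by rwa [div_lt_iff₀ hl0] at h1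
  set ρ : ℝ := 2 / (θ * l) with hρ
  have hρ0 : 0 < ρ := by positivity
  have hρ1 : ρ < 1 := by rw [hρ, div_lt_one (by positivity)]; exact hθl
  set ε : ℝ := (1 - ρ) / 10 with hε
  have hε0 : 0 < ε := by rw [hε]; linarith
  have hε5 : 5 * ε < 1 := by rw [hε]; linarith
  obtain ⟨L0, hL0⟩ := exists_nat_gt (5 * ε * (1 / ε) ^ l / (6 * ε))
  set L : ℕ := L0 + 1 with hLdef
  have hL1 : 1 ≤ L := by omega
  have hL1' : (1:ℝ) ≤ L := by exact_mod_cast hL1
  have hLpow : (L : ℝ) ≤ (L : ℝ) ^ l := by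
    calc (L : ℝ) = (L : ℝ) ^ 1 := (pow_one _).symm
      _ ≤ (L : ℝ) ^ l := pow_le_pow_right₀ hL1' (by omega)
  have hL : 5 * ε * (1 / ε) ^ l < 6 * ε * (L : ℝ) ^ l := by
    rw [div_lt_iff₀ (by positivity)] at hL0
    have h3 : (L0 : ℝ) ≤ (L : ℝ) ^ l := by
      refine le_trans ?_ hLpow
      rw [hLdef]; push_cast; linarith
    nlinarith
  refine ⟨ε, hε0, by linarith, 2 * (L : ℝ) ^ l - 1, by linarith, ?_⟩
  set κ : ℝ := 1 + 2 / l - 2 * θ with hκ
  have hκ0 : 0 < κ := by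
    rw [hκ]
    have : 2 * θ < 1 + 2 / l := by
      have h3 : 2 * (1 / 2 + 1 / (l : ℝ)) = 1 + 2 / l := by ring
      linarith
    linarith
  have hκ1 : 0 < 1 - κ := by
    rw [hκ]
    linarith
  -- eventual facts
  have ev_log1 : ∀ᶠ n : ℕ in atTop, 1 / θ ≤ Real.log n := tendsto_log_nat.eventually_ge_atTop _
  have ev_log0 : ∀ᶠ n : ℕ in atTop, 0 < Real.log n := tendsto_log_nat.eventually_gt_atTop _
  have ev_om : ∀ᶠ n : ℕ in atTop, θ / 2 < om ((n : ℝ) ^ (-θ)) / Real.log n :=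
    (om_tendsto hθ0).eventually_const_lt (by linarith)
  have ev_bud : ∀ᶠ n : ℕ in atTop, Real.log n ≤ (1 / (θ * L)) * (n : ℝ) ^ (θ - 2 / l) :=
    log_small (by linarith) (by positivity)
  have ev_desc := desc_eventually (l := l) hε0
  have ev_R1 : ∀ᶠ n : ℕ in atTop, (n : ℝ) ^ (-(1 - κ)) < 1 / (8 * L) :=
    (tendsto_rpow_neg_nat hκ1).eventually_lt_const (by positivity)
  have ev_R2 : ∀ᶠ n : ℕ in atTop, (l : ℝ) + 1 ≤ (n : ℝ) ^ κ :=
    (tendsto_rpow_nat hκ0).eventually_ge_atTop _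
  have ev_n : ∀ᶠ n : ℕ in atTop, 4 * ((l : ℝ) + 3) ≤ n :=
    tendsto_natCast_atTop_atTop.eventually_ge_atTop _
  have ev_adm : ∀ᶠ n : ℕ in atTop, (n : ℝ) ^ (-θ) < 1 / (2 * (L : ℝ) ^ l) :=
    (tendsto_rpow_neg_nat hθ0).eventually_lt_const (by positivity)
  -- final inequality
  have hfin : (L : ℝ) * (2 / l) < (1 - ε) * θ * ((1 - 5 * ε) * L) := by
    have h3 : (1 - ε) * (1 - 5 * ε) > ρ := by
      have : ρ = 1 - 10 * ε := by rw [hε]; ring
      rw [this]
      nlinarith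
    have h4 : (2:ℝ) / l = ρ * θ := by rw [hρ]; field_simp
    rw [h4]
    have h5 : 0 < θ * L := by positivity
    nlinarith
  have hF : Tendsto (fun n : ℕ => ((L : ℝ) + (l + 1) / (n : ℝ) ^ κ) *
      (Real.log (8 * L) / Real.log n + 2 / l)) atTop (𝓝 (((L : ℝ) + 0) * (0 + 2 / l))) := by
    apply Tendsto.mul
    · exact tendsto_const_nhds.add (tendsto_const_nhds.div_atTop (tendsto_rpow_nat hκ0))
    · exact (tendsto_const_nhds.div_atTop tendsto_log_nat).add tendsto_const_nhds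
  have hG : Tendsto (fun n : ℕ => (1 - ε) * (om ((n : ℝ) ^ (-θ)) / Real.log n) *
      ((1 - 5 * ε) * L)) atTop (𝓝 ((1 - ε) * θ * ((1 - 5 * ε) * L))) :=
    ((om_tendsto hθ0).const_mul _).mul_const _
  have ev_fin := hF.eventually_lt hG (by rw [add_zero, zero_add]; exact hfin)
  filter_upwards [ev_log1, ev_log0, ev_om, ev_bud, ev_desc, ev_R1, ev_R2, ev_n, ev_adm, ev_fin,
    eventually_ge_atTop 4] with n n1 n2 n3 n4 n5 n6 n7 n8 n9 n10 n11
  have hn1 : 1 ≤ n := by omega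
  have hn0 : (0:ℝ) < n := by exact_mod_cast hn1
  set p : ℝ := (n : ℝ) ^ (-θ) with hp
  set R : ℝ := (n : ℝ) ^ κ with hR
  have hp0 : 0 < p := Real.rpow_pos_of_pos hn0 _
  have hp1 : p < 1 := by
    apply Real.rpow_lt_one_of_one_lt_of_neg
    · have : 1 < n := by omega
      exact_mod_cast this
    · linarith
  have hR0 : 0 < R := Real.rpow_pos_of_pos hn0 _
  have hX : R ^ l = (n : ℝ) ^ (l + 2) * p ^ (2 * l) := by
    rw [hR, hp, ← Real.rpow_natCast, ← Real.rpow_natCast (n : ℝ) (l + 2),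
      ← Real.rpow_natCast _ (2 * l), ← Real.rpow_mul hn0.le, ← Real.rpow_mul hn0.le,
      ← Real.rpow_add hn0]
    congr 1
    rw [hκ]
    push_cast
    field_simp
    ring
  have hΛ : Real.log (1 / p) = θ * Real.log n := log_inv_rpow hn1
  have hΛ1 : 1 ≤ Real.log (1 / p) := by
    rw [hΛ]
    rw [div_le_iff₀ hθ0] at n1
    linarith
  have hom0 : 0 < om p := by
    have h3 : 0 < om p / Real.log n := lt_trans (by positivity) n3
    exact (div_pos_iff_of_pos_right n2).mp h3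
  have hom_le : om p ≤ θ * Real.log n := by
    unfold om
    rw [hΛ]
    have h3 : 0 ≤ Real.log (4 * (θ * Real.log n)) := by
      apply Real.log_nonneg
      rw [hΛ] at hΛ1
      linarith
    linarith
  have hnp : (n : ℝ) * p = R * (n : ℝ) ^ (θ - 2 / l) := by
    rw [hp, hR, ← Real.rpow_add hn0]
    nth_rewrite 1 [← Real.rpow_one (n : ℝ)]
    rw [← Real.rpow_add hn0]
    congr 1
    rw [hκ]; ring
  have hnp2 : (n : ℝ) * p ^ 2 = R * (n : ℝ) ^ (-(2 / (l : ℝ))) := by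
    rw [hp, hR, ← Real.rpow_natCast ((n : ℝ) ^ (-θ)) 2, ← Real.rpow_mul hn0.le,
      ← Real.rpow_add hn0]
    nth_rewrite 1 [← Real.rpow_one (n : ℝ)]
    rw [← Real.rpow_add hn0]
    congr 1
    rw [hκ]; push_cast; ring
  have hbud : om p * ((1 - 5 * ε) * L * R) ≤ n * p := by
    rw [hnp]
    have h3 : θ * Real.log n * (L * R) ≤ R * (n : ℝ) ^ (θ - 2 / l) := by
      have h4 : θ * L * Real.log n ≤ (n : ℝ) ^ (θ - 2 / l) := by
        have h5 := mul_le_mul_of_nonneg_left n4 (by positivity : 0 ≤ θ * L)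
        have h6 : θ * L * (1 / (θ * L) * (n : ℝ) ^ (θ - 2 / l)) = (n : ℝ) ^ (θ - 2 / l) := by
          field_simp
        rw [h6] at h5
        exact h5
      calc θ * Real.log n * (L * R) = R * (θ * L * Real.log n) := by ring
        _ ≤ R * (n : ℝ) ^ (θ - 2 / l) := mul_le_mul_of_nonneg_left h4 hR0.le
    refine le_trans ?_ h3
    have h4 : (1 - 5 * ε) * L * R ≤ L * R := by
      have h7 : 0 < (L : ℝ) * R := by positivity
      rw [mul_assoc]
      apply mul_le_of_le_one_left h7.le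
      linarith
    apply mul_le_mul hom_le h4 _ (by positivity)
    have : 0 < 1 - 5 * ε := by linarith
    positivity
  -- admissible set nonempty
  have hadm : (admissible (KK l) n p ((2 * (L : ℝ) ^ l - 1) * (1 - ε))).Nonempty := by
    refine ⟨_, admissible_one ?_⟩
    have h3 : p ^ (2 * l) ≤ p := by
      calc p ^ (2 * l) ≤ p ^ 1 := pow_le_pow_of_le_one hp0.le hp1.le (by omega)
        _ = p := pow_one p
    have h4 : 1 + (2 * (L : ℝ) ^ l - 1) * (1 - ε) ≤ 2 * (L : ℝ) ^ l := by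
      have : 0 < 2 * (L : ℝ) ^ l - 1 := by linarith
      nlinarith
    have h5 : 0 ≤ 1 + (2 * (L : ℝ) ^ l - 1) * (1 - ε) := by
      have : 0 < 2 * (L : ℝ) ^ l - 1 := by linarith
      have : 0 < 1 - ε := by linarith
      positivity
    calc (1 + (2 * (L : ℝ) ^ l - 1) * (1 - ε)) * p ^ (2 * l)
        ≤ 2 * (L : ℝ) ^ l * p := mul_le_mul h4 h3 (by positivity) (by positivity)
      _ ≤ 2 * (L : ℝ) ^ l * (1 / (2 * (L : ℝ) ^ l)) :=
          mul_le_mul_of_nonneg_left n9.le (by positivity)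
      _ = 1 := by field_simp
  -- the ceiling
  have hceil : ((⌈(L : ℝ) * R⌉₊ : ℕ) : ℝ) < L * R + 1 := Nat.ceil_lt_add_one (by positivity)
  have hR_n : R < n / (8 * L) := by
    have h3 : R = n * (n : ℝ) ^ (-(1 - κ)) := by
      rw [hR]
      nth_rewrite 2 [← Real.rpow_one (n : ℝ)]
      rw [← Real.rpow_add hn0]
      congr 1; ring
    rw [h3]
    calc (n : ℝ) * (n : ℝ) ^ (-(1 - κ)) < n * (1 / (8 * L)) :=
          mul_lt_mul_of_pos_left n6 hn0
      _ = n / (8 * L) := by ring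
  have hLR_n : (L : ℝ) * R < n / 8 := by
    rw [lt_div_iff₀ (by positivity)] at hR_n
    linarith
  have hs2 : ((⌈(L : ℝ) * R⌉₊ : ℝ) + l) + 2 ≤ n / 2 := by
    linarith
  have hnp2le : (n : ℝ) * p ^ 2 ≤ L * R := by
    rw [hnp2, mul_comm]
    apply mul_le_mul_of_nonneg_right _ hR0.le
    have h3 : (n : ℝ) ^ (-(2 / (l : ℝ))) ≤ 1 := by
      apply Real.rpow_le_one_of_one_le_of_nonpos
      · exact_mod_cast hn1
      · have : 0 < 2 / (l : ℝ) := by positivity
        linarith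
    linarith
  obtain ⟨hPpos, hPlog⟩ := tail_det hl hL1 hp0 hp1 hR0 hX hs2 n11 hnp2le
  refine ⟨hPpos, hadm, ?_⟩
  -- lower bound for Psi
  have hPsi : om p * ((1 - 5 * ε) * L * R) ≤
      Psi (KK l) n p ((2 * (L : ℝ) ^ l - 1) * (1 - ε)) := by
    unfold Psi
    apply le_csInf (hadm.image _)
    rintro _ ⟨ξ, hξ, rfl⟩
    exact mf_det hl hp0 hp1 hR0 hX hΛ1 hom0 hε0 hε5 hbud n5 hL hL1 hξ
  refine lt_of_le_of_lt hPlog (lt_of_lt_of_le ?_ (mul_le_mul_of_nonneg_left hPsi (by linarith)))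
  -- compare
  set S : ℝ := (⌈(L : ℝ) * R⌉₊ : ℝ) + l with hS
  have hS0 : 0 < S := by positivity
  have hS1 : S ≤ L * R + (l + 1) := by linarith
  have hS2 : S ≤ 2 * (L * R) := by
    have : (l : ℝ) + 1 ≤ L * R := by nlinarith
    linarith
  have hlog : Real.log (4 * S / (n * p ^ 2)) ≤ Real.log (8 * L) + 2 / l * Real.log n := by
    have h3 : 4 * S / (n * p ^ 2) ≤ 8 * L * (n : ℝ) ^ (2 / (l : ℝ)) := by
      rw [hnp2, div_le_iff₀ (by positivity)]
      have h4 : (n : ℝ) ^ (2 / (l : ℝ)) * (n : ℝ) ^ (-(2 / (l : ℝ))) = 1 := by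
        rw [← Real.rpow_add hn0]; simp
      calc 4 * S ≤ 8 * L * R := by linarith
        _ = 8 * L * R * ((n : ℝ) ^ (2 / (l : ℝ)) * (n : ℝ) ^ (-(2 / (l : ℝ)))) := by
            rw [h4, mul_one]
        _ = _ := by ring
    calc Real.log (4 * S / (n * p ^ 2)) ≤ Real.log (8 * L * (n : ℝ) ^ (2 / (l : ℝ))) :=
          Real.log_le_log (by positivity) h3
      _ = _ := by rw [Real.log_mul (by positivity) (by positivity), Real.log_rpow hn0]
  have hlognn : 0 ≤ Real.log (8 * L) + 2 / l * Real.log n := by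
    have : 0 ≤ Real.log (8 * L) := Real.log_nonneg (by linarith)
    positivity
  calc S * Real.log (4 * S / (n * p ^ 2)) ≤ S * (Real.log (8 * L) + 2 / l * Real.log n) :=
        mul_le_mul_of_nonneg_left hlog hS0.le
    _ ≤ (L * R + (l + 1)) * (Real.log (8 * L) + 2 / l * Real.log n) :=
        mul_le_mul_of_nonneg_right hS1 hlognn
    _ = (((L : ℝ) + (l + 1) / R) * (Real.log (8 * L) / Real.log n + 2 / l)) *
        (R * Real.log n) := by
        field_simp
    _ < ((1 - ε) * (om p / Real.log n) * ((1 - 5 * ε) * L)) * (R * Real.log n) :=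
        mul_lt_mul_of_pos_right n10 (by positivity)
    _ = (1 - ε) * (om p * ((1 - 5 * ε) * L * R)) := by
        field_simp

end Pool.Agent.Lib.MP_2bf17e_pr
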