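import Pool.Agent.Lib.MP_2bf17e_pr.Count
import Pool.Agent.Lib.MP_2bf17e_pr.Entropy
open Filter Topology Finset

namespace Pool.Agent.Lib.MP_2bf17e_pr

/-- sum over a set of pairs, given by an injective parametrisation -/
theorem sum_inj_le {n : ℕ} {g : Sym2 (Fin n) → ℝ} (hg : ∀ e ∈ pairs n, 0 ≤ g e) {ι : Type*}
    (s : Finset ι) (f : ι → Sym2 (Fin n)) (hf : ∀ i ∈ s, f i ∈ pairs n)
    (hinj : ∀ i ∈ s, ∀ j ∈ s, f i = f j → i = j) : ∑ i ∈ s, g (f i) ≤ ∑ e ∈ pairs n, g e := by
  classical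
  rw [← Finset.sum_image hinj]
  apply Finset.sum_le_sum_of_subset_of_nonneg
  · intro e he
    obtain ⟨i, hi, rfl⟩ := Finset.mem_image.mp he
    exact hf i hi
  · intro e he _
    exact hg e he

theorem star_sum {n : ℕ} (g : Sym2 (Fin n) → ℝ) (x : Fin n) :
    ∑ v, off g x v = ∑ v ∈ Finset.univ.filter (fun v => x ≠ v), g s(x, v) := by
  rw [Finset.sum_filter]
  apply Finset.sum_congr rfl
  intro v _
  unfold off
  by_cases h : x = v
  · simp [h]
  · simp [h]

theorem star_sum_le {n : ℕ} {g : Sym2 (Fin n) → ℝ} (hg : ∀ e ∈ pairs n, 0 ≤ g e) (x : Fin n) :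
    ∑ v, off g x v ≤ ∑ e ∈ pairs n, g e := by
  rw [star_sum]
  apply sum_inj_le hg
  · intro v hv
    exact mk_mem_pairs.mpr (Finset.mem_filter.mp hv).2
  · intro v hv w hw h
    simp only [Sym2.eq_iff, true_and] at h
    rcases h with h | ⟨h1, h2⟩
    · exact h
    · rw [← h1, h2]

theorem two_star_sum_le {n : ℕ} {g : Sym2 (Fin n) → ℝ} (hg : ∀ e ∈ pairs n, 0 ≤ g e)
    {x y : Fin n} (hxy : x ≠ y) :
    ∑ v ∈ Finset.univ.filter (fun v => x ≠ v ∧ y ≠ v), (g s(x, v) + g s(y, v)) ≤
      ∑ e ∈ pairs n, g e := by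
  classical
  set T := Finset.univ.filter (fun v : Fin n => x ≠ v ∧ y ≠ v) with hT
  have h1 : ∑ v ∈ T, (g s(x, v) + g s(y, v)) =
      ∑ q ∈ (Finset.univ : Finset (Fin 2)) ×ˢ T, g s((if q.1 = 0 then x else y), q.2) := by
    rw [Finset.sum_product, Fin.sum_univ_two, Finset.sum_add_distrib]
    simp
  rw [h1]
  apply sum_inj_le hg
  · rintro ⟨i, v⟩ hv
    simp only [Finset.mem_product, Finset.mem_univ, true_and] at hv
    rw [hT, Finset.mem_filter] at hv
    rw [mk_mem_pairs]
    split_ifs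
    · exact hv.2.1
    · exact hv.2.2
  · rintro ⟨i, v⟩ hv ⟨j, w⟩ hw h
    simp only [Finset.mem_product, Finset.mem_univ, true_and] at hv hw
    rw [hT, Finset.mem_filter] at hv hw
    simp only [Sym2.eq_iff] at h
    fin_cases i <;> fin_cases j
    · simp only [Fin.zero_eta, Fin.isValue, if_true, true_and] at h
      rcases h with h | ⟨h1, h2⟩
      · rw [h]
      · exact absurd h1 hw.2.1
    · simp only [Fin.zero_eta, Fin.isValue, if_true, Fin.mk_one, one_ne_zero, if_false] at h
      rcases h with ⟨h1, _⟩ | ⟨h1, _⟩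
      · exact absurd h1 hxy
      · exact absurd h1 hw.2.1
    · simp only [Fin.zero_eta, Fin.isValue, if_true, Fin.mk_one, one_ne_zero, if_false] at h
      rcases h with ⟨h1, _⟩ | ⟨h1, _⟩
      · exact absurd h1.symm hxy
      · exact absurd h1 hw.2.2
    · simp only [Fin.isValue, Fin.mk_one, one_ne_zero, if_false, true_and] at h
      rcases h with h | ⟨h1, _⟩
      · rw [h]
      · exact absurd h1 hw.2.2

theorem double_sum {n : ℕ} (g : Sym2 (Fin n) → ℝ) :
    ∑ x : Fin n, ∑ v, off g x v = 2 * ∑ e ∈ pairs n, g e := by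
  classical
  have h1 : ∑ e ∈ pairs n, g e = ∑ i ∈ (Finset.univ : Finset (Fin n)).offDiag with i.1 < i.2,
      g s(i.1, i.2) := by
    rw [← Finset.sum_sym2_filter_not_isDiag]
    apply Finset.sum_congr _ (fun _ _ => rfl)
    ext e
    rw [mem_pairs, Finset.mem_filter]
    simp
  have h2 : ∑ e ∈ pairs n, g e = ∑ i ∈ (Finset.univ : Finset (Fin n)).offDiag with i.2 < i.1,
      g s(i.1, i.2) := by
    rw [h1]
    refine Finset.sum_nbij' (fun i => (i.2, i.1)) (fun i => (i.2, i.1)) ?_ ?_ ?_ ?_ ?_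
    · intro i hi
      simp only [Finset.mem_filter, Finset.mem_offDiag, Finset.mem_univ, true_and] at hi ⊢
      exact ⟨hi.1.symm, hi.2⟩
    · intro i hi
      simp only [Finset.mem_filter, Finset.mem_offDiag, Finset.mem_univ, true_and] at hi ⊢
      exact ⟨hi.1.symm, hi.2⟩
    · intro i _; rfl
    · intro i _; rfl
    · intro i _
      rw [Sym2.eq_swap]
  have h3 : ∑ x : Fin n, ∑ v, off g x v = ∑ i ∈ (Finset.univ : Finset (Fin n)).offDiag,
      g s(i.1, i.2) := by
    rw [← Finset.sum_product', ]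
    have h4 : (Finset.univ : Finset (Fin n)).offDiag =
        ((Finset.univ : Finset (Fin n)) ×ˢ (Finset.univ : Finset (Fin n))).filter
          (fun i => i.1 ≠ i.2) := by
      ext i
      simp
    rw [h4, Finset.sum_filter]
    apply Finset.sum_congr rfl
    intro i _
    unfold off
    by_cases h : i.1 = i.2
    · simp [h]
    · simp [h]
  rw [h3, two_mul]
  nth_rewrite 1 [h1]
  rw [h2, ← Finset.sum_union]
  · apply Finset.sum_congr _ (fun _ _ => rfl)
    ext i
    simp only [Finset.mem_union, Finset.mem_filter, Finset.mem_offDiag, Finset.mem_univ, true_and]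
    constructor
    · intro h
      rcases lt_or_gt_of_ne h with h' | h'
      · exact Or.inl ⟨h, h'⟩
      · exact Or.inr ⟨h, h'⟩
    · rintro (h | h) <;> exact h.1
  · rw [Finset.disjoint_left]
    intro i hi hi'
    rw [Finset.mem_filter] at hi hi'
    exact absurd hi.2 (not_lt.mpr hi'.2.le)

theorem off_sq {n : ℕ} (g : Sym2 (Fin n) → ℝ) (x v : Fin n) :
    off g x v ^ 2 = off (fun e => g e ^ 2) x v := by
  unfold off
  split_ifs <;> simp

/-- the codegree sums of `η` in terms of `m = ∑ η_e²` -/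
theorem SSum_le_half {n : ℕ} {η : Sym2 (Fin n) → ℝ} {x y : Fin n}
    (hxy : x ≠ y) : SSum η x y ≤ (∑ e ∈ pairs n, η e ^ 2) / 2 := by
  have h1 := two_star_sum_le (g := fun e => η e ^ 2) (fun e _ => sq_nonneg _) hxy
  have h2 : SSum η x y = ∑ v ∈ Finset.univ.filter (fun v => x ≠ v ∧ y ≠ v),
      η s(x, v) * η s(y, v) := by
    unfold SSum
    rw [Finset.sum_filter]
    apply Finset.sum_congr rfl
    intro v _
    unfold off
    by_cases h : x = v
    · simp [h]
    · by_cases h' : y = v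
      · simp [h']
      · simp [h, h']
  rw [h2]
  have h3 : ∑ v ∈ Finset.univ.filter (fun v => x ≠ v ∧ y ≠ v), η s(x, v) * η s(y, v) ≤
      ∑ v ∈ Finset.univ.filter (fun v => x ≠ v ∧ y ≠ v), (η s(x, v) ^ 2 + η s(y, v) ^ 2) / 2 := by
    apply Finset.sum_le_sum
    intro v _
    nlinarith [sq_nonneg (η s(x, v) - η s(y, v))]
  rw [← Finset.sum_div] at h3
  linarith

theorem SSum_nonneg {n : ℕ} {η : Sym2 (Fin n) → ℝ} (h : ∀ e ∈ pairs n, 0 ≤ η e) (x y : Fin n) :
    0 ≤ SSum η x y :=
  Finset.sum_nonneg (fun v _ => mul_nonneg (off_nonneg h x v) (off_nonneg h y v))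

theorem SSum_sq_sum {n : ℕ} (η : Sym2 (Fin n) → ℝ) :
    ∑ x : Fin n, ∑ y : Fin n, SSum η x y ^ 2 ≤ (2 * ∑ e ∈ pairs n, η e ^ 2) ^ 2 := by
  have h1 : ∀ x y : Fin n, SSum η x y ^ 2 ≤
      (∑ v, off (fun e => η e ^ 2) x v) * ∑ v, off (fun e => η e ^ 2) y v := by
    intro x y
    unfold SSum
    have := Finset.sum_mul_sq_le_sq_mul_sq Finset.univ (fun v => off η x v) (fun v => off η y v)
    simp only [off_sq] at this
    exact this
  calc ∑ x : Fin n, ∑ y : Fin n, SSum η x y ^ 2
      ≤ ∑ x : Fin n, ∑ y : Fin n, (∑ v, off (fun e => η e ^ 2) x v) *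
        ∑ v, off (fun e => η e ^ 2) y v :=
        Finset.sum_le_sum (fun x _ => Finset.sum_le_sum (fun y _ => h1 x y))
    _ = (∑ x : Fin n, ∑ v, off (fun e => η e ^ 2) x v) ^ 2 := by
        rw [sq, Finset.sum_mul_sum]
    _ = (2 * ∑ e ∈ pairs n, η e ^ 2) ^ 2 := by rw [double_sum]

theorem SSum_pow_sum {n l : ℕ} (hl : 2 ≤ l) {η : Sym2 (Fin n) → ℝ} (h : ∀ e ∈ pairs n, 0 ≤ η e) :
    ∑ x : Fin n, ∑ y : Fin n, (if x = y then 0 else SSum η x y ^ l) ≤
      16 * ((∑ e ∈ pairs n, η e ^ 2) / 2) ^ l := by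
  set m := ∑ e ∈ pairs n, η e ^ 2 with hm
  have hm0 : 0 ≤ m := Finset.sum_nonneg (fun e _ => sq_nonneg _)
  obtain ⟨k, rfl⟩ := Nat.exists_eq_add_of_le hl
  calc ∑ x : Fin n, ∑ y : Fin n, (if x = y then 0 else SSum η x y ^ (2 + k))
      ≤ ∑ x : Fin n, ∑ y : Fin n, (m / 2) ^ k * SSum η x y ^ 2 := by
        apply Finset.sum_le_sum
        intro x _
        apply Finset.sum_le_sum
        intro y _
        split_ifs with hxy
        · positivity
        · rw [pow_add, mul_comm]
          apply mul_le_mul_of_nonneg_right _ (sq_nonneg _)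
          exact pow_le_pow_left₀ (SSum_nonneg h x y) (SSum_le_half hxy) k
    _ = (m / 2) ^ k * ∑ x : Fin n, ∑ y : Fin n, SSum η x y ^ 2 := by
        rw [Finset.mul_sum]
        apply Finset.sum_congr rfl
        intro x _
        rw [Finset.mul_sum]
    _ ≤ (m / 2) ^ k * (2 * m) ^ 2 :=
        mul_le_mul_of_nonneg_left (SSum_sq_sum η) (by positivity)
    _ = 16 * (m / 2) ^ (2 + k) := by
        rw [pow_add]; ring

theorem convex_pow {A Q t : ℝ} (hA : 0 ≤ A) (hQ : 0 ≤ Q) (ht0 : 0 < t) (ht1 : t < 1) (l : ℕ) :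
    (A + Q) ^ l ≤ (1 - t) * (A / (1 - t)) ^ l + t * (Q / t) ^ l := by
  have h1 : 0 < 1 - t := by linarith
  have h := (convexOn_pow (𝕜 := ℝ) l).2 (x := A / (1 - t)) (y := Q / t)
    (by simp only [Set.mem_Ici]; positivity) (by simp only [Set.mem_Ici]; positivity)
    h1.le ht0.le (by ring)
  simp only [smul_eq_mul] at h
  have e1 : (1 - t) * (A / (1 - t)) = A := by field_simp
  have e2 : t * (Q / t) = Q := by field_simp
  rw [e1, e2] at h
  exact h

/-- The main deterministic estimate: if the entropy cost is at most `n p`, then the expected number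
of copies is controlled by `m = ∑ η_e²`. -/
theorem expect_copies_bound {n l : ℕ} (hl : 2 ≤ l) {p t : ℝ} (hp0 : 0 < p) (hp1 : p < 1)
    (ht0 : 0 < t) (ht1 : t < 1) {ξ : Sym2 (Fin n) → ℝ} (hξ : ∀ e ∈ pairs n, 0 ≤ ξ e ∧ ξ e ≤ 1)
    (hI : totEnt p ξ ≤ n * p) :
    expect ξ (fun G => (copies (KK l) G : ℝ)) ≤
      (n : ℝ) ^ 2 * ((1 - t) * (5 * (n * p ^ 2) / (1 - t)) ^ l) +
      t * (16 * ((∑ e ∈ pairs n, max (ξ e - p) 0 ^ 2) / 2) ^ l / t ^ l) := by
  have ht : 0 < 1 - t := by linarith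
  set η : Sym2 (Fin n) → ℝ := fun e => max (ξ e - p) 0 with hη
  have hη0 : ∀ e ∈ pairs n, 0 ≤ η e := fun e _ => le_max_right _ _
  have hrow : ∀ x : Fin n, ∑ v, off η x v ≤ 2 * (n * p) := by
    intro x
    have h1 : ∑ v, off η x v ≤ ∑ v, (off (fun e => relEnt p (ξ e)) x v + p) := by
      apply Finset.sum_le_sum
      intro v _
      unfold off
      split_ifs with hxv
      · linarith
      · have := hξ _ (mk_mem_pairs.mpr hxv)
        exact relEnt_ge_linear hp0 hp1 this.1 this.2
    have h2 : ∑ v, off (fun e => relEnt p (ξ e)) x v ≤ totEnt p ξ := by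
      apply star_sum_le
      intro e he
      exact relEnt_nonneg hp0 hp1 (hξ e he).1 (hξ e he).2
    rw [Finset.sum_add_distrib, Finset.sum_const, Finset.card_univ, Fintype.card_fin,
      nsmul_eq_mul] at h1
    linarith
  have hS : ∀ x y : Fin n, SSum ξ x y ≤ 5 * (n * p ^ 2) + SSum η x y := by
    intro x y
    have h1 : ∀ x v : Fin n, off ξ x v ≤ p + off η x v := by
      intro x v
      unfold off
      split_ifs
      · linarith
      · simp only [hη]
        have := le_max_left (ξ s(x, v) - p) 0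
        linarith
    have h2 : SSum ξ x y ≤ ∑ v, (p + off η x v) * (p + off η y v) := by
      unfold SSum
      apply Finset.sum_le_sum
      intro v _
      exact mul_le_mul (h1 x v) (h1 y v) (off_nonneg (fun e he => (hξ e he).1) _ _)
        (add_nonneg hp0.le (off_nonneg hη0 _ _))
    have h3 : ∑ v, (p + off η x v) * (p + off η y v) = n * p ^ 2 + p * ∑ v, off η x v +
        p * ∑ v, off η y v + SSum η x y := by
      unfold SSum
      rw [Finset.mul_sum, Finset.mul_sum]
      have : (n : ℝ) * p ^ 2 = ∑ _v : Fin n, p ^ 2 := by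
        rw [Finset.sum_const, Finset.card_univ, Fintype.card_fin, nsmul_eq_mul]
      rw [this, ← Finset.sum_add_distrib, ← Finset.sum_add_distrib, ← Finset.sum_add_distrib]
      apply Finset.sum_congr rfl
      intro v _
      ring
    have h4 := mul_le_mul_of_nonneg_left (hrow x) hp0.le
    have h5 := mul_le_mul_of_nonneg_left (hrow y) hp0.le
    rw [h3] at h2
    nlinarith
  refine (expect_copies_le (fun e he => (hξ e he).1)).trans ?_
  have hAnn : (0:ℝ) ≤ 5 * (n * p ^ 2) := by positivity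
  calc ∑ x : Fin n, ∑ y : Fin n, (if x = y then 0 else SSum ξ x y ^ l)
      ≤ ∑ x : Fin n, ∑ y : Fin n, ((1 - t) * (5 * (n * p ^ 2) / (1 - t)) ^ l +
        t * (if x = y then 0 else SSum η x y ^ l) / t ^ l) := by
        apply Finset.sum_le_sum
        intro x _
        apply Finset.sum_le_sum
        intro y _
        split_ifs with hxy
        · have : (0:ℝ) ≤ (5 * (n * p ^ 2) / (1 - t)) ^ l := by positivity
          rw [mul_zero, zero_div, add_zero]
          positivity
        · calc SSum ξ x y ^ l ≤ (5 * (n * p ^ 2) + SSum η x y) ^ l :=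
                pow_le_pow_left₀ (SSum_nonneg (fun e he => (hξ e he).1) x y) (hS x y) l
            _ ≤ _ := convex_pow hAnn (SSum_nonneg hη0 x y) ht0 ht1 l
            _ = _ := by rw [div_pow (SSum η x y), ← mul_div_assoc t]
    _ = (n : ℝ) ^ 2 * ((1 - t) * (5 * (n * p ^ 2) / (1 - t)) ^ l) + t *
        ((∑ x : Fin n, ∑ y : Fin n, (if x = y then 0 else SSum η x y ^ l)) / t ^ l) := by
        simp only [Finset.sum_add_distrib, Finset.sum_const, Finset.card_univ, Fintype.card_fin,
          nsmul_eq_mul]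
        rw [← mul_div_assoc, Finset.mul_sum, Finset.sum_div]
        congr 1
        · ring
        · apply Finset.sum_congr rfl
          intro x _
          rw [Finset.mul_sum, Finset.sum_div]
    _ ≤ _ := by
        apply add_le_add_right
        apply mul_le_mul_of_nonneg_left _ ht0.le
        apply div_le_div_of_nonneg_right _ (by positivity)
        exact SSum_pow_sum hl hη0

end Pool.Agent.Lib.MP_2bf17e_pr
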