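import Pool.Agent.Lib.MP_2bf17e_pr.Final
open Filter Topology Finset

namespace Pool.Agent.Lib.MP_2bf17e_pr

theorem inRange_KK {l : ℕ} (hl : 3 ≤ l) {θ : ℝ} (h1 : 2 / (l : ℝ) < θ)
    (h2 : θ < 1 / 2 + 1 / (l : ℝ)) {p : ℕ → ℝ} (hp : ∀ n, 0 < p n ∧ p n < 1)
    (hpe : ∀ᶠ n : ℕ in atTop, p n = (n : ℝ) ^ (-θ)) : InRange (KK l) p := by
  have hl0 : (0:ℝ) < l := by
    have : 0 < l := by omega
    exact_mod_cast this
  refine ⟨hp, ?_, ?_⟩
  · have hmd : @SimpleGraph.maxDegree _ (KK l) _ (fun a b => Classical.propDecidable _) = l :=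
      @maxDegree_KK l (by omega) (fun a b => Classical.propDecidable _)
    rw [hmd]
    have h3 : 0 < θ - 1 / l := by
      have : (1:ℝ) / l < 2 / l := by
        apply div_lt_div_of_pos_right _ hl0
        norm_num
      linarith
    refine (tendsto_rpow_neg_nat h3).congr' ?_
    filter_upwards [hpe, eventually_ge_atTop 1] with n hn hn1
    have hn0 : (0:ℝ) < n := by exact_mod_cast hn1
    rw [hn, ← Real.rpow_sub hn0]
    congr 1
    ring
  · rw [fracIndep_KK (by omega), ncard_edgeSet_KK]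
    have hcard : Fintype.card (Fin 2 ⊕ Fin l) = l + 2 := by simp [add_comm]
    rw [hcard]
    set κ : ℝ := 1 + 2 / l - 2 * θ with hκ
    have hκ0 : 0 < κ := by
      rw [hκ]
      have h3 : 2 * (1 / 2 + 1 / (l : ℝ)) = 1 + 2 / l := by ring
      linarith
    have h4 := (isLittleO_log_rpow_rpow_atTop ((l : ℝ) / (l - 1)) (by positivity : 0 < κ * l)).tendsto_div_nhds_zero
    have h5 := h4.comp tendsto_natCast_atTop_atTop
    refine h5.congr' ?_
    filter_upwards [hpe, eventually_ge_atTop 1] with n hn hn1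
    have hn0 : (0:ℝ) < n := by exact_mod_cast hn1
    simp only [Function.comp]
    congr 1
    rw [hn, ← Real.rpow_natCast, ← Real.rpow_natCast _ (2 * l), ← Real.rpow_mul hn0.le,
      ← Real.rpow_add hn0]
    congr 1
    rw [hκ]
    push_cast
    field_simp
    ring

end Pool.Agent.Lib.MP_2bf17e_pr
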